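import Mathlib

/-!
Counting subgroups of small index.
-/

namespace Pool.Agent.Lib.MP_d87a8f_pr.S

variable {G : Type} [Group G] [Finite G]

theorem card_rel {R C : Subgroup G} (h : R ≤ C) : Nat.card R * R.relIndex C = Nat.card C := by
  rw [← Nat.card_congr (Subgroup.subgroupOfEquivOfLe h).toEquiv]
  exact (R.subgroupOf C).card_mul_index

theorem two_le_rel {R C : Subgroup G} (h : ¬ C ≤ R) : 2 ≤ R.relIndex C := by
  have h0 : R.relIndex C ≠ 0 := Subgroup.index_ne_zero_of_finite
  have h1 : R.relIndex C ≠ 1 := fun e => h (Subgroup.relIndex_eq_one.1 e)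
  omega

theorem ct_rel (n a : ℕ) (R D : Subgroup G) (ha : R.relIndex D ≤ 2 ^ a) :
    {C : Subgroup G | R ≤ C ∧ C ≤ D ∧ C.relIndex D ≤ n}.ncard ≤ (2 * n + 1) ^ a := by
  classical
  have := Fintype.ofFinite G
  induction a generalizing R with
  | zero =>
    have hD : D ≤ R := by
      by_contra h
      have := two_le_rel h
      omega
    rw [pow_zero, ← Set.ncard_singleton R]
    exact Set.ncard_le_ncard (fun C hC => le_antisymm (hC.2.1.trans hD) hC.1) (Set.toFinite _)
  | succ a ih =>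
    set T : Finset (Subgroup G) :=
      (Set.toFinite {C : Subgroup G | (R ≤ C ∧ C ≤ D ∧ C.relIndex D ≤ n) ∧ C ≠ R}).toFinset with hT
    have mT : ∀ C, C ∈ T ↔ (R ≤ C ∧ C ≤ D ∧ C.relIndex D ≤ n) ∧ C ≠ R := fun C => by
      rw [hT, Set.Finite.mem_toFinset]; rfl
    have cd : ∀ B : Subgroup G, (Finset.univ.filter (· ∈ B)).card = Nat.card B := fun B => by
      rw [Nat.card_eq_fintype_card, Fintype.card_subtype]
    set t : Finset G := Finset.univ.filter (· ∈ D) with ht
    have key := Finset.sum_card_bipartiteAbove_eq_sum_card_bipartiteBelow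
      (fun (C : Subgroup G) (y : G) => y ∈ C ∧ y ∉ R) (s := T) (t := t)
    have h1 : ∀ C ∈ T, Nat.card D ≤
        2 * n * (t.bipartiteAbove (fun (C : Subgroup G) (y : G) => y ∈ C ∧ y ∉ R) C).card := by
      intro C hC
      obtain ⟨⟨c1, c2, c3⟩, c4⟩ := (mT C).1 hC
      have e1 := card_rel c1
      have e2 := card_rel c2
      have e3 := two_le_rel (R := R) (C := C) fun h => c4 (le_antisymm h c1)
      have e4 : Finset.univ.filter (· ∈ C) ⊆ Finset.univ.filter (· ∈ R) ∪
          t.bipartiteAbove (fun (C : Subgroup G) (y : G) => y ∈ C ∧ y ∉ R) C := by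
        intro y hy
        have hy' : y ∈ C := by simpa using hy
        by_cases hr : y ∈ R
        · exact Finset.mem_union_left _ (by simpa using hr)
        · exact Finset.mem_union_right _ ((Finset.mem_bipartiteAbove _).2
            ⟨by simpa [ht] using c2 hy', hy', hr⟩)
      have e5 := (Finset.card_le_card e4).trans (Finset.card_union_le _ _)
      rw [cd, cd] at e5
      have e6 : Nat.card R * 2 ≤ Nat.card C := e1 ▸ Nat.mul_le_mul_left _ e3
      have e7 : Nat.card D ≤ Nat.card C * n := e2 ▸ Nat.mul_le_mul_left _ c3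
      refine e7.trans ?_
      rw [mul_comm 2 n, mul_assoc, mul_comm n]
      exact Nat.mul_le_mul_right _ (by omega)
    have h2 : ∀ y ∈ t, (T.bipartiteBelow (fun (C : Subgroup G) (y : G) => y ∈ C ∧ y ∉ R) y).card
        ≤ (2 * n + 1) ^ a := by
      intro y _
      rcases (T.bipartiteBelow (fun (C : Subgroup G) (y : G) => y ∈ C ∧ y ∉ R) y).eq_empty_or_nonempty
        with he | ⟨C0, hC0⟩
      · rw [he]; exact Nat.zero_le _
      obtain ⟨hC0, y1, y2⟩ := (Finset.mem_bipartiteBelow _).1 hC0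
      obtain ⟨⟨c1, c2, -⟩, -⟩ := (mT C0).1 hC0
      have r1 : R ⊔ Subgroup.zpowers y ≤ D :=
        sup_le (c1.trans c2) ((Subgroup.zpowers_le).2 (c2 y1))
      have r2 := Subgroup.relIndex_mul_relIndex R _ D le_sup_left r1
      have r3 := two_le_rel (R := R) (C := R ⊔ Subgroup.zpowers y) fun h =>
        y2 (h (Subgroup.mem_sup_right (Subgroup.mem_zpowers y)))
      have r4 : (R ⊔ Subgroup.zpowers y).relIndex D ≤ 2 ^ a := by
        have := Nat.mul_le_mul_right ((R ⊔ Subgroup.zpowers y).relIndex D) r3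
        rw [r2] at this
        rw [pow_succ] at ha
        omega
      refine le_trans ?_ (ih _ r4)
      rw [← Set.ncard_coe_finset]
      refine Set.ncard_le_ncard (fun C hC => ?_) (Set.toFinite _)
      obtain ⟨hC, z1, -⟩ := (Finset.mem_bipartiteBelow _).1 hC
      obtain ⟨⟨d1, d2, d3⟩, -⟩ := (mT C).1 hC
      exact ⟨sup_le d1 ((Subgroup.zpowers_le).2 z1), d2, d3⟩
    have h3 : T.card * Nat.card D ≤ 2 * n * (2 * n + 1) ^ a * Nat.card D := by
      have a1 := Finset.card_nsmul_le_sum T _ _ h1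
      have a2 := Finset.sum_le_card_nsmul t _ _ h2
      rw [← Finset.mul_sum, key, smul_eq_mul] at a1
      rw [smul_eq_mul, ht, cd] at a2
      refine a1.trans ?_
      rw [mul_assoc, mul_assoc, mul_assoc, mul_comm _ (Nat.card D)]
      exact Nat.mul_le_mul_left _ (Nat.mul_le_mul_left _ a2)
    have h4 : T.card ≤ 2 * n * (2 * n + 1) ^ a := Nat.le_of_mul_le_mul_right h3 Nat.card_pos
    have h5 : {C : Subgroup G | R ≤ C ∧ C ≤ D ∧ C.relIndex D ≤ n} ⊆ ↑(insert R T) := by
      intro C hC
      by_cases e : C = R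
      · simp [e]
      · exact Finset.mem_coe.2 (Finset.mem_insert_of_mem ((mT C).2 ⟨hC, e⟩))
    have h6 := (Set.ncard_le_ncard h5 (Set.toFinite _)).trans
      ((Set.ncard_coe_finset _).le.trans (Finset.card_insert_le _ _))
    have h7 : 1 ≤ (2 * n + 1) ^ a := Nat.one_le_pow _ _ (by omega)
    rw [pow_succ]
    nlinarith

theorem ct_top (R : Subgroup G) (n a : ℕ) (ha : R.index ≤ 2 ^ a) :
    {C : Subgroup G | R ≤ C ∧ C.index ≤ n}.ncard ≤ (2 * n + 1) ^ a := by
  simpa using ct_rel n a R ⊤ (by simpa using ha)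

end Pool.Agent.Lib.MP_d87a8f_pr.S
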