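import Mathlib

/-!
Vocabulary for the count of the characters of small degree.
-/

namespace Pool.Agent.Lib.MP_d87a8f_pr.S

open scoped commutatorElement

/-- every chief factor `U / V` above `K` with `V` central in `U` modulo `K` is Abelian -/
def NC (G : Type) [Group G] (K : Subgroup G) : Prop :=
  ∀ V U : Subgroup G, V.Normal → U.Normal → K ≤ V → V ≤ U →
    (∀ W : Subgroup G, W.Normal → V ≤ W → W ≤ U → W = V ∨ W = U) → ⁅U, V⁆ ≤ K → ⁅U, U⁆ ≤ V

variable {G : Type} [Group G]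

/-- the elements whose commutators with `D` lie in the normal subgroup `K` -/
def zz (K D : Subgroup G) [hK : K.Normal] : Subgroup G where
  carrier := {y | ∀ g ∈ D, ⁅y, g⁆ ∈ K}
  one_mem' := fun g _ => by simp [K.one_mem]
  mul_mem' := fun {a b} ha hb g hg => by
    have e : ⁅a * b, g⁆ = a * ⁅b, g⁆ * a⁻¹ * ⁅a, g⁆ := by
      simp only [commutatorElement_def]; group
    rw [e]; exact K.mul_mem (hK.conj_mem _ (hb g hg) a) (ha g hg)
  inv_mem' := fun {a} ha g hg => by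
    have e : ⁅a⁻¹, g⁆ = a⁻¹ * ⁅a, g⁆⁻¹ * a⁻¹⁻¹ := by
      simp only [commutatorElement_def]; group
    rw [e]; exact hK.conj_mem _ (K.inv_mem (ha g hg)) a⁻¹

theorem mem_zz {K D : Subgroup G} [K.Normal] {y : G} : y ∈ zz K D ↔ ∀ g ∈ D, ⁅y, g⁆ ∈ K := Iff.rfl

theorem le_zz {K D N : Subgroup G} [K.Normal] : N ≤ zz K D ↔ ⁅N, D⁆ ≤ K :=
  Subgroup.commutator_le.symm

instance zz_normal (K D : Subgroup G) [hK : K.Normal] [hD : D.Normal] : (zz K D).Normal :=
  ⟨fun a ha x g hg => by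
    have e : ⁅x * a * x⁻¹, g⁆ = x * ⁅a, x⁻¹ * g * x⁻¹⁻¹⁆ * x⁻¹ := by
      simp only [commutatorElement_def]; group
    rw [e]; exact hK.conj_mem _ (ha _ (hD.conj_mem g hg x⁻¹)) x⟩

end Pool.Agent.Lib.MP_d87a8f_pr.S
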