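import Mathlib
import Pool.Agent.Lib.MP_d87a8f_pr.E.Step
import Pool.Agent.Lib.MP_d87a8f_pr.S.Defs

/-!
Linear constituents on a normal subgroup.
-/

namespace Pool.Agent.Lib.MP_d87a8f_pr.S

open Finset Pool.Agent.Lib.MP_d87a8f_pr.E
open scoped commutatorElement

variable {G : Type} [Group G] [Fintype G] {χ τ l : G → ℂ}

/-- `exists_ir`, then `Ir.kinv` and `Ir.lin_of_comm` with the normal subgroup `⁅A, A⁆` -/
theorem exists_lin (hχ : Ir ⊤ χ) (A : Subgroup G) [A.Normal] (hA : ⁅A, A⁆ ≤ kerf χ) :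
    ∃ l, Lin A l ∧ ip A χ l ≠ 0 := by
  obtain ⟨n, n0, hn⟩ := hχ.deg_pos
  obtain ⟨θ, h1, h2⟩ := (hχ.1.mono (le_top : A ≤ ⊤)).cl.exists_ir
    (by rw [hn]; exact Nat.cast_ne_zero.2 n0.ne')
  have h3 : KInv A ⁅A, A⁆ θ := h1.kinv (Subgroup.commutator_le_left A A)
    (fun y _ x hx => hA hx y) h2
  exact ⟨θ, h1.lin_of_comm le_rfl h3, h2⟩

/-- `Ir.kinv` -/
theorem lin_ker (hχ : Ir ⊤ χ) {A : Subgroup G} (hK : kerf χ ≤ A) (hl : Lin A l)
    (h : ip A χ l ≠ 0) : ∀ x ∈ kerf χ, l x = 1 := by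
  intro x hx
  have := kerf_normal hχ.1.cl
  have h1 := hl.ir.kinv hK (fun y _ x hx => hx y) h 1 A.one_mem x hx
  rwa [one_mul, hl.1] at h1

/-- `g * a * g⁻¹ = ⁅g, a⁆ * a` -/
theorem lin_inv (hχ : Ir ⊤ χ) {A C : Subgroup G} (hK : kerf χ ≤ A) (hC : ⁅C, A⁆ ≤ kerf χ)
    (hl : Lin A l) (h : ip A χ l ≠ 0) : ∀ g ∈ C, ∀ a ∈ A, l (g * a * g⁻¹) = l a := by
  intro g hg a ha
  have h1 : ⁅g, a⁆ ∈ kerf χ := hC (Subgroup.commutator_mem_commutator hg ha)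
  have e : g * a * g⁻¹ = ⁅g, a⁆ * a := by
    rw [commutatorElement_def]; group
  rw [e, hl.2 _ (hK h1) a ha, lin_ker hχ hK hl h _ h1, one_mul]

/-- `orbit_le` -/
theorem stab_index (hχ : Ir ⊤ χ) {n : ℕ} (hn : χ 1 = n) {A : Subgroup G} [A.Normal]
    (hl : Lin A l) (h : ip A χ l ≠ 0) : (stab ⊤ A l).index ≤ n := by
  obtain ⟨m, hm⟩ := (hχ.1.mono (le_top : A ≤ ⊤)).ip_nat hl.ir.1
  have hm0 : m ≠ 0 := by
    rintro rfl
    exact h (by rw [hm, Nat.cast_zero])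
  have h5 := orbit_le le_top hχ.1 hl.ir hm (e := 1) (by rw [Nat.cast_one]; exact hl.1) hn
  rw [mul_one, Subgroup.relIndex_top_right] at h5
  exact le_trans (Nat.le_mul_of_pos_right _ (Nat.pos_of_ne_zero hm0)) h5

/-- the conjugates of one linear constituent `l` by coset representatives of its stabiliser; the
normal subgroup of the `a` with `l (t * a * t⁻¹) = 1` for all `t` leaves `ind ⊤ A l` invariant
(`ind_kinv`), hence also `χ` (`ip_ind`, `Ir.kinv`) -/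
theorem wts (hχ : Ir ⊤ χ) {n : ℕ} (hn : χ 1 = n) (A : Subgroup G) [A.Normal]
    (hA : ⁅A, A⁆ ≤ kerf χ) : ∃ l : Fin n → G → ℂ, (∀ i, Lin A (l i) ∧ ip A χ (l i) ≠ 0) ∧
      ∀ a ∈ A, (∀ i, l i a = 1) → a ∈ kerf χ := by
  classical
  have hn' : A.Normal := inferInstance
  obtain ⟨l, hl, h⟩ := exists_lin hχ A hA
  have hi := stab_index hχ hn hl h
  obtain ⟨φ, hφ⟩ : ∃ φ : Fin n → G ⧸ stab ⊤ A l, Function.Surjective φ := by
    have := Fintype.ofFinite (G ⧸ stab ⊤ A l)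
    obtain ⟨e⟩ := Function.Embedding.nonempty_of_card_le (α := G ⧸ stab ⊤ A l) (β := Fin n)
      (by rw [Fintype.card_fin, ← Nat.card_eq_fintype_card]; exact hi)
    exact ⟨_, Function.invFun_surjective e.injective⟩
  refine ⟨fun i => cj ((φ i).out)⁻¹ l, fun i => ⟨hl.conj _, ?_⟩, fun a ha h1 => ?_⟩
  · rw [← ip_cj ((φ i).out)⁻¹ χ l] at h
    rwa [ip_congr (f' := cj ((φ i).out)⁻¹ χ)
      (fun y _ => (hχ.1.cl _ trivial y trivial).symm) fun _ _ => rfl]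
  have m : ∀ x, ∀ a ∈ A, ∀ b ∈ A, l (x * (a * b) * x⁻¹) = l (x * a * x⁻¹) * l (x * b * x⁻¹) :=
    fun x => (hl.conj x).2
  let K : Subgroup G :=
    { carrier := {a | a ∈ A ∧ ∀ t, l (t * a * t⁻¹) = 1}
      one_mem' := ⟨A.one_mem, fun t => by simp [hl.1]⟩
      mul_mem' := fun ha hb => ⟨A.mul_mem ha.1 hb.1, fun t => by
        rw [m t _ ha.1 _ hb.1, ha.2, hb.2, mul_one]⟩
      inv_mem' := fun {a} ha => ⟨A.inv_mem ha.1, fun t => by
        have h2 : l (t * a⁻¹ * t⁻¹) * l (t * a * t⁻¹) = 1 := (hl.conj t).inv_mul ha.1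
        rwa [ha.2, mul_one] at h2⟩ }
  have hK : K.Normal := ⟨fun b hb g => ⟨hn'.conj_mem b hb.1 g, fun t => by
    rw [← hb.2 (t * g)]
    congr 1
    group⟩⟩
  have h2 : KInv A K l := fun y hy x hx => by
    have h3 := hx.2 1
    rw [one_mul, inv_one, mul_one] at h3
    rw [hl.2 y hy x hx.1, h3, mul_one]
  have h4 : KInv ⊤ K χ := hχ.kinv le_top (ind_kinv (N := ⊤) (fun x hx => hx.1) h2)
    (by rwa [ip_ind le_top l hχ.1.cl, ip_comm])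
  refine fun y => h4 y trivial a ⟨ha, fun t => ?_⟩
  obtain ⟨i, hi⟩ := hφ (QuotientGroup.mk t⁻¹)
  obtain ⟨s, hs⟩ := QuotientGroup.mk_out_eq_mul (stab ⊤ A l) t⁻¹
  have h5 : cj ((φ i).out)⁻¹ l a = 1 := h1 i
  rw [hi, hs] at h5
  rw [← h5, ← ((stab ⊤ A l).inv_mem s.2).2 _ (hn'.conj_mem a ha t)]
  simp only [cj]
  congr 1
  group

/-- `clifford` gives `τ a = τ 1 * l a`; by `Ir.conv` the average of `l a⁻¹ * τ (y * a)` over `A`
is `τ y` -/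
theorem scal {A C : Subgroup G} [A.Normal] (hA : A ≤ C) (hτ : Ir C τ) (hl : Lin A l)
    (hinv : ∀ g ∈ C, ∀ a ∈ A, l (g * a * g⁻¹) = l a) (h : ip A τ l ≠ 0) :
    ∀ y ∈ C, ∀ a ∈ A, τ (y * a) = l a * τ y := by
  have hcl := clifford hA hτ hl.ir hinv h
  obtain ⟨n, hn0, hn⟩ := hτ.deg_pos
  have h1 : τ 1 ≠ 0 := by
    rw [hn]
    exact_mod_cast hn0.ne'
  have hm : ip A τ l = τ 1 := by rw [hcl 1 A.one_mem, hl.1, mul_one]
  have key : ∀ y ∈ C, ∑ a ∈ els A, l a⁻¹ * τ (y * a) = (Nat.card A : ℂ) * τ y := by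
    intro y hy
    have e1 : ∀ g ∈ els C, ∑ a ∈ els A, l a⁻¹ * τ (y * (g * a * g⁻¹)) =
        ∑ a ∈ els A, l a⁻¹ * τ (y * a) := by
      intro g hg
      rw [← sum_els_conj A g (fun a => l a⁻¹ * τ (y * a))]
      refine sum_congr rfl fun a ha => ?_
      have e : (g * a * g⁻¹)⁻¹ = g * a⁻¹ * g⁻¹ := by group
      rw [e, hinv g (mem_els.1 hg) a⁻¹ (A.inv_mem (mem_els.1 ha))]
    have e2 : ∀ a ∈ els A, ∑ g ∈ els C, l a⁻¹ * τ (y * (g * a * g⁻¹)) =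
        (Nat.card C : ℂ) * τ y := by
      intro a ha
      have ha' := mem_els.1 ha
      have c := hτ.conv hy (hA ha')
      rw [hcl a ha', hm] at c
      have c' : ∑ g ∈ els C, τ (y * (g * a * g⁻¹)) = (Nat.card C : ℂ) * (τ y * l a) :=
        mul_left_cancel₀ h1 (by rw [c]; ring)
      rw [← mul_sum, c']
      linear_combination (Nat.card C : ℂ) * τ y * hl.inv_mul ha'
    have e3 : ∑ g ∈ els C, ∑ a ∈ els A, l a⁻¹ * τ (y * (g * a * g⁻¹)) =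
        ∑ a ∈ els A, ∑ g ∈ els C, l a⁻¹ * τ (y * (g * a * g⁻¹)) := sum_comm
    rw [sum_congr rfl e1, sum_congr rfl e2, sum_const, sum_const, card_els, card_els,
      nsmul_eq_mul, nsmul_eq_mul] at e3
    exact mul_left_cancel₀ (card_ne C) (by rw [e3]; ring)
  intro y hy b hb
  have k1 := key (y * b) (C.mul_mem hy (hA hb))
  have k2 := key y hy
  rw [← sum_els_left A hb (fun a => l a⁻¹ * τ (y * a))] at k2
  have k3 : ∑ a ∈ els A, l a⁻¹ * τ (y * b * a) =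
      l b * ∑ a ∈ els A, l (b * a)⁻¹ * τ (y * (b * a)) := by
    rw [mul_sum]
    refine sum_congr rfl fun a ha => ?_
    have ha' := mem_els.1 ha
    have e : a⁻¹ = (b * a)⁻¹ * b := by group
    rw [e, hl.2 _ (A.inv_mem (A.mul_mem hb ha')) _ hb, mul_assoc y]
    ring
  rw [k3, k2] at k1
  exact mul_left_cancel₀ (card_ne A) (by rw [← k1]; ring)

/-- `Cl.exists_con`, `Ch.sum_le` -/
theorem exists_mid (hχ : Ir ⊤ χ) {n : ℕ} (hn : χ 1 = n) {A C : Subgroup G} (hA : A ≤ C)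
    (h : ip A χ l ≠ 0) :
    ∃ (τ : G → ℂ) (e : ℕ), Ir C τ ∧ ip C χ τ ≠ 0 ∧ ip A τ l ≠ 0 ∧ τ 1 = e ∧ e ≤ n := by
  have hC : Ch C χ := hχ.1.mono le_top
  obtain ⟨τ, hτ, h1, h2⟩ := hC.cl.exists_con hA h
  obtain ⟨e, he⟩ := hτ.1.deg
  obtain ⟨m, hm⟩ := hC.ip_nat hτ.1
  refine ⟨τ, e, hτ, h1, h2, he, ?_⟩
  have hs := hC.sum_le ({()} : Finset Unit) (fun _ => τ) (fun _ _ => hτ) (fun _ _ _ _ _ => rfl)
    (m := m) (e := e) (n := n) (fun _ _ => hm) (fun _ _ => he) hn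
  have hm0 : m ≠ 0 := by
    rintro rfl
    exact h1 (by simpa using hm)
  rw [card_singleton, one_mul] at hs
  exact (Nat.le_mul_of_pos_left e (Nat.pos_of_ne_zero hm0)).trans hs

end Pool.Agent.Lib.MP_d87a8f_pr.S
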