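import Mathlib
import Pool.Agent.Lib.MP_d87a8f_pr.M.Low
import Pool.Agent.Lib.MP_d87a8f_pr.M.Factor
import Pool.Agent.Lib.MP_d87a8f_pr.S.Wt

/-!
The central character.
-/

namespace Pool.Agent.Lib.MP_d87a8f_pr.S

open Finset Pool.Agent.Lib.MP_d87a8f_pr.E Pool.Agent.Lib.MP_d87a8f_pr.M
open scoped commutatorElement

variable {G : Type} [Group G] [Fintype G]

/-- the central character: `exists_lin`, `lin_inv`, `scal` for `A = Z ⊔ kerf χ`; the matrix of `z`
is scalar and has determinant one on the commutator subgroup -/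
theorem cen_char {χ : G → ℂ} {e : ℕ} (hχ : Ir ⊤ χ) (he : χ 1 = e) (Z : Subgroup G)
    (hZ : ⁅(⊤ : Subgroup G), Z⁆ ≤ kerf χ) :
    Lin Z (fun z => χ z / e) ∧ (∀ y, ∀ z ∈ Z, χ (y * z) = χ z / e * χ y) ∧
      ∀ z ∈ Z, z ∈ commutator G → (χ z / e) ^ e = 1 := by
  classical
  obtain ⟨I⟩ := Q.exists_irr G
  obtain ⟨i, rfl⟩ := exists_trace I hχ
  rw [kerf_trace] at hZ
  have hd : I.d i = e := by
    have h : ((I.d i : ℕ) : ℂ) = e := by simpa using he
    exact_mod_cast h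
  subst hd
  have h0 : ((I.d i : ℕ) : ℂ) ≠ 0 := Nat.cast_ne_zero.2 (I.pos i).ne'
  have hsc : ∀ z ∈ Z, I.ρ i z = ((I.ρ i z).trace / (I.d i : ℂ)) • 1 := fun z hz => by
    obtain ⟨c, hc⟩ := scalar_of_comm (I.schur i) (I.ρ i z) fun g => by
      have h1 : I.ρ i ⁅g, z⁆ = 1 :=
        hZ (Subgroup.commutator_mem_commutator (Subgroup.mem_top g) hz)
      have h2 : g * z = ⁅g, z⁆ * (z * g) := by
        rw [commutatorElement_def]; group
      rw [← map_mul, h2, map_mul, h1, one_mul, map_mul]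
    rw [hc, Matrix.trace_smul, Matrix.trace_one, Fintype.card_fin, smul_eq_mul,
      mul_div_cancel_right₀ _ h0]
  have hmul : ∀ y, ∀ z ∈ Z, (I.ρ i (y * z)).trace =
      (I.ρ i z).trace / (I.d i : ℂ) * (I.ρ i y).trace := fun y z hz => by
    rw [map_mul]
    nth_rewrite 1 [hsc z hz]
    rw [mul_smul_comm, mul_one, Matrix.trace_smul, smul_eq_mul]
  refine ⟨⟨?_, fun x _ y hy => ?_⟩, hmul, fun z hz hc => ?_⟩
  · show (I.ρ i 1).trace / (I.d i : ℂ) = 1
    rw [map_one, Matrix.trace_one, Fintype.card_fin, div_self h0]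
  · show (I.ρ i (x * y)).trace / (I.d i : ℂ) =
      (I.ρ i x).trace / (I.d i : ℂ) * ((I.ρ i y).trace / (I.d i : ℂ))
    rw [hmul x y hy]
    ring
  · let δ : G →* ℂˣ := ((Matrix.detMonoidHom).comp (I.ρ i)).toHomUnits
    have h1 : δ z = 1 := Abelianization.commutator_subset_ker δ hc
    have h2 : (I.ρ i z).det = 1 := congrArg Units.val h1
    rw [hsc z hz, Matrix.det_smul, Matrix.det_one, mul_one, Fintype.card_fin] at h2
    exact h2

end Pool.Agent.Lib.MP_d87a8f_pr.S
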