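import Mathlib
import Pool.Agent.Lib.MP_d87a8f_pr.S.Defs

/-!
Two normal subgroups whose common centraliser is the smaller one.
-/

namespace Pool.Agent.Lib.MP_d87a8f_pr.S

open scoped commutatorElement

variable {G : Type} [Group G]

theorem comm_sup_le {A X E D : Subgroup G} [A.Normal] (h1 : ⁅X, D⁆ ≤ A) (h2 : ⁅E, D⁆ ≤ A) :
    ⁅X ⊔ E, D⁆ ≤ A := le_zz.1 (sup_le (le_zz.2 h1) (le_zz.2 h2))

theorem comm_sup_sup_le {A X E : Subgroup G} [A.Normal] (h1 : ⁅X, X⁆ ≤ A) (h2 : ⁅X, E⁆ ≤ A)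
    (h3 : ⁅E, E⁆ ≤ A) : ⁅X ⊔ E, X ⊔ E⁆ ≤ A := by
  refine comm_sup_le ?_ ?_ <;> rw [Subgroup.commutator_comm]
  · exact comm_sup_le h1 (by rwa [Subgroup.commutator_comm])
  · exact comm_sup_le h2 h3

variable [Finite G]

theorem exists_max_sub (P : Subgroup G → Prop) (h : ∃ x, P x) :
    ∃ m, P m ∧ ∀ y, P y → m ≤ y → y = m := by
  obtain ⟨m, hm, h2⟩ := (wellFounded_gt (α := Subgroup G)).has_min {x | P x} h
  exact ⟨m, hm, fun y hy hle => (hle.eq_or_lt.resolve_right (h2 y hy)).symm⟩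

theorem exists_min_sub (P : Subgroup G → Prop) (h : ∃ x, P x) :
    ∃ m, P m ∧ ∀ y, P y → y ≤ m → y = m := by
  obtain ⟨m, hm, h2⟩ := (wellFounded_lt (α := Subgroup G)).has_min {x | P x} h
  exact ⟨m, hm, fun y hy hle => hle.eq_or_lt.resolve_right (h2 y hy)⟩

/-- `A` is maximal among the normal subgroups with `K ≤ A` and `⁅A, A⁆ ≤ K`; `E` is maximal among
the normal subgroups with `A ≤ E ≤ zz K A` and `⁅E, E⁆ ≤ A`. If `zz K A ⊓ zz K E` is not `A`, take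
`X` minimal normal above `A` in it; `NC` gives `⁅X, X⁆ ≤ A`, so `X ⊔ E = E`, so `⁅X, X⁆ ≤ K` and
`X = A` -/
theorem exists_AE (K : Subgroup G) [K.Normal] (h : NC G K) : ∃ A E : Subgroup G,
    A.Normal ∧ E.Normal ∧ K ≤ A ∧ A ≤ E ∧ ⁅E, A⁆ ≤ K ∧ ⁅E, E⁆ ≤ A ∧ zz K A ⊓ zz K E ≤ A := by
  obtain ⟨A, ⟨nA, kA, cA⟩, mA⟩ := exists_max_sub (fun A : Subgroup G => A.Normal ∧ K ≤ A ∧ ⁅A, A⁆ ≤ K)
    ⟨K, inferInstance, le_rfl, Subgroup.commutator_le_left K K⟩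
  obtain ⟨E, ⟨nE, aE, zE, cE⟩, mE⟩ := exists_max_sub
    (fun E : Subgroup G => E.Normal ∧ A ≤ E ∧ E ≤ zz K A ∧ ⁅E, E⁆ ≤ A)
    ⟨A, nA, le_rfl, le_zz.2 cA, cA.trans kA⟩
  have hEA : ⁅E, A⁆ ≤ K := le_zz.1 zE
  refine ⟨A, E, nA, nE, kA, aE, hEA, cE, ?_⟩
  by_contra hZ
  have hAZ : A ≤ zz K A ⊓ zz K E :=
    le_inf (le_zz.2 cA) (le_zz.2 (by rwa [Subgroup.commutator_comm]))
  obtain ⟨X, ⟨nX, aX, xZ, xA⟩, mX⟩ := exists_min_sub
    (fun X : Subgroup G => X.Normal ∧ A ≤ X ∧ X ≤ zz K A ⊓ zz K E ∧ X ≠ A)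
    ⟨zz K A ⊓ zz K E, inferInstance, hAZ, le_rfl, fun e => hZ e.le⟩
  have hXA : ⁅X, A⁆ ≤ K := le_zz.1 (xZ.trans inf_le_left)
  have hXE : ⁅X, E⁆ ≤ K := le_zz.1 (xZ.trans inf_le_right)
  have hXX : ⁅X, X⁆ ≤ A := h A X nA nX kA aX (fun W nW h1 h2 => by
    by_cases e : W = A
    · exact Or.inl e
    · exact Or.inr (mX W ⟨nW, h1, h2.trans xZ, e⟩ h2)) hXA
  have hE : X ⊔ E = E := mE _ ⟨inferInstance, aE.trans le_sup_right,
    sup_le (xZ.trans inf_le_left) zE, comm_sup_sup_le hXX (hXE.trans kA) cE⟩ le_sup_right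
  have hle : X ≤ E := hE ▸ le_sup_left
  exact xA (mA X ⟨nX, kA.trans aX, (Subgroup.commutator_mono le_rfl hle).trans hXE⟩ aX)

/-- `W = V ⊔ ⁅U, U⁆`; if `W = U` then `U ≤ V ⊔ derivedSeries G n` for all `n` -/
theorem nc_of_solvable [Group.IsSolvable G] (K : Subgroup G) : NC G K := by
  intro V U nV nU _ hVU hmin _
  have hU : ⁅U, U⁆ ≤ U := Subgroup.commutator_le_left U U
  rcases hmin (V ⊔ ⁅U, U⁆) inferInstance le_sup_left (sup_le hVU hU) with e | e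
  · exact e ▸ le_sup_right
  have key : ∀ n, U ≤ V ⊔ derivedSeries G n := by
    intro n
    induction n with
    | zero => simp
    | succ n ih =>
      have nD := derivedSeries_normal G n
      rw [derivedSeries_succ]
      refine e.ge.trans (sup_le le_sup_left ((Subgroup.commutator_mono ih ih).trans ?_))
      exact comm_sup_sup_le ((Subgroup.commutator_le_left V V).trans le_sup_left)
        ((Subgroup.commutator_le_left V _).trans le_sup_left) le_sup_right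
  obtain ⟨n, hn⟩ := (inferInstance : Group.IsSolvable G).solvable
  have := key n
  rw [hn, sup_bot_eq] at this
  exact hU.trans this

end Pool.Agent.Lib.MP_d87a8f_pr.S
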