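import Mathlib
import Pool.Agent.Lib.MP_d87a8f_pr.M.Ind
import Pool.Agent.Lib.MP_d87a8f_pr.S.Cch
import Pool.Agent.Lib.MP_d87a8f_pr.S.Grp

/-!
A linear constituent on a subgroup of small index of a group of prime power order.
-/

namespace Pool.Agent.Lib.MP_d87a8f_pr.S

open Finset Pool.Agent.Lib.MP_d87a8f_pr.E Pool.Agent.Lib.MP_d87a8f_pr.M
open scoped commutatorElement

theorem mon_ip_map {G : Type} [Group G] [Fintype G] (P : Subgroup G) [Fintype P] (H : Subgroup P)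
    (f g : G → ℂ) : ip (H.map P.subtype) f g = ip H (fun x : P => f x) (fun x : P => g x) := by
  unfold ip
  rw [Subgroup.card_map_of_injective P.subtype_injective]
  congr 1
  symm
  refine sum_bij (fun x _ => (x : G)) (fun x hx => mem_els.2 ⟨x, mem_els.1 hx, rfl⟩)
    (fun x _ y _ e => Subtype.ext e) (fun y hy => ?_) (fun x _ => rfl)
  obtain ⟨x, hx, rfl⟩ := mem_els.1 hy
  exact ⟨x, mem_els.2 hx, rfl⟩

theorem mon_ip_ne {G : Type} [Group G] [Fintype G] {C H : Subgroup G} {χ τ μ : G → ℂ}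
    (hχ : Ch C χ) (hτ : Ir C τ) (hH : H ≤ C) (hμ : Ch H μ) (h1 : ip C χ τ ≠ 0)
    (h2 : ip H τ μ ≠ 0) : ip H χ μ ≠ 0 := by
  obtain ⟨m, hm⟩ := hχ.ip_nat hτ.1
  obtain ⟨a, ha⟩ := (hτ.1.mono hH).ip_nat hμ
  obtain ⟨c, hc⟩ := (hχ.mono hH).ip_nat hμ
  have := hχ.con_le hτ hH hμ hm ha hc
  rw [hm, Nat.cast_ne_zero] at h1
  rw [ha, Nat.cast_ne_zero] at h2
  rw [hc, Nat.cast_ne_zero]
  exact (lt_of_lt_of_le (Nat.mul_pos (Nat.pos_of_ne_zero h1) (Nat.pos_of_ne_zero h2)) this).ne'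

theorem mon_lin_comm {G : Type} [Group G] [Fintype G] {H : Subgroup G} {μ : G → ℂ}
    (h : Lin H μ) : ∀ z ∈ ⁅H, H⁆, μ z = 1 := by
  let D : Subgroup G :=
    { carrier := {x | x ∈ H ∧ μ x = 1}
      one_mem' := ⟨H.one_mem, h.1⟩
      mul_mem' := fun ha hb => ⟨H.mul_mem ha.1 hb.1, by rw [h.2 _ ha.1 _ hb.1, ha.2, hb.2, mul_one]⟩
      inv_mem' := fun {a} ha => ⟨H.inv_mem ha.1, by simpa [ha.2] using h.inv_mul ha.1⟩ }
  have : ⁅H, H⁆ ≤ D := Subgroup.commutator_le.2 fun a ha b hb => by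
    have i1 := H.inv_mem ha
    have i2 := H.inv_mem hb
    refine ⟨H.mul_mem (H.mul_mem (H.mul_mem ha hb) i1) i2, ?_⟩
    rw [commutatorElement_def, h.2 _ (H.mul_mem (H.mul_mem ha hb) i1) _ i2,
      h.2 _ (H.mul_mem ha hb) _ i1, h.2 _ ha _ hb]
    linear_combination (μ b⁻¹ * μ b) * h.inv_mul ha + h.inv_mul hb
  exact fun z hz => (this hz).2

theorem mon_exists_cen {P : Type} [Group P] [Fintype P] {p : ℕ} (hp : p.Prime) (hP : IsPGroup p P)
    (S : Subgroup P) [S.Normal] (hS : S ≠ ⊤) : ∃ x : P, x ∉ S ∧ ∀ g : P, ⁅g, x⁆ ∈ S := by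
  have := Fact.mk hp
  have : Nontrivial (P ⧸ S) := QuotientGroup.nontrivial_iff.2 hS
  have := (hP.to_quotient S).center_nontrivial
  obtain ⟨⟨y, hy⟩, hy1⟩ := exists_ne (1 : Subgroup.center (P ⧸ S))
  obtain ⟨x, rfl⟩ := QuotientGroup.mk_surjective y
  refine ⟨x, fun hx => hy1 (Subtype.ext ((QuotientGroup.eq_one_iff x).2 hx)), fun g => ?_⟩
  rw [← QuotientGroup.eq_one_iff, commutatorElement_def]
  simp only [QuotientGroup.mk_mul, QuotientGroup.mk_inv]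
  rw [Subgroup.mem_center_iff.1 hy g]
  group

/-- induction on the order. If `⁅⊤, ⊤⁆ ≤ kerf χ` then `χ` is linear. Otherwise `S = zz (kerf χ) ⊤`
is proper, take `x` outside `S` and central modulo `S`, `B = S ⊔ zpowers x`, `l` from `exists_lin`;
`stab ⊤ B l` contains `Z` (`lin_inv`) and is proper (`scal`); `exists_under`, `ir_subtype` -/
theorem mon_top {p : ℕ} (hp : p.Prime) (N : ℕ) : ∀ (P : Type) [Group P] [Fintype P],
    Fintype.card P ≤ N → IsPGroup p P → ∀ (χ : P → ℂ) (e : ℕ) (Z : Subgroup P), Ir ⊤ χ → χ 1 = e →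
    ⁅(⊤ : Subgroup P), Z⁆ ≤ kerf χ →
    ∃ (H : Subgroup P) (μ : P → ℂ), Z ≤ H ∧ H.index ≤ e ∧ Lin H μ ∧ ip H χ μ ≠ 0 := by
  classical
  induction N with
  | zero => exact fun P _ _ h => absurd h (Nat.not_le.2 Fintype.card_pos)
  | succ N ih =>
  intro P _ _ hN hP χ e Z hχ he hZ
  have hK := kerf_normal hχ.1.cl
  by_cases hc : ⁅(⊤ : Subgroup P), ⊤⁆ ≤ kerf χ
  · have hl : Lin ⊤ χ := hχ.lin_of_comm hc fun y _ x hx => hx y
    refine ⟨⊤, χ, le_top, ?_, hl, by rw [hχ.2]; exact one_ne_zero⟩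
    have : (e : ℂ) = 1 := he.symm.trans hl.1
    rw [Subgroup.index_top]
    exact (by exact_mod_cast this : e = 1).ge
  set S := zz (kerf χ) ⊤ with hSd
  have hS : ⁅S, ⊤⁆ ≤ kerf χ := le_zz.1 le_rfl
  obtain ⟨x, hx, hxc⟩ := mon_exists_cen hp hP S fun h => hc (le_zz.1 h.ge)
  have hKS : kerf χ ≤ S := le_zz.2 (Subgroup.commutator_le_left _ _)
  have hxz : ⁅Subgroup.zpowers x, (⊤ : Subgroup P)⁆ ≤ S :=
    le_zz.1 (Subgroup.zpowers_le.2 fun g _ => by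
      rw [← commutatorElement_inv]; exact S.inv_mem (hxc g))
  set B := S ⊔ Subgroup.zpowers x with hB
  have hBS : ⁅B, ⊤⁆ ≤ S := comm_sup_le (Subgroup.commutator_le_left _ _) hxz
  have : B.Normal := ⟨fun b hb g => by
    have e1 : g * b * g⁻¹ = ⁅b, g⁆⁻¹ * b := by rw [commutatorElement_def]; group
    rw [e1]
    exact B.mul_mem (B.inv_mem ((hBS.trans le_sup_left)
      (Subgroup.commutator_mem_commutator hb trivial))) hb⟩
  have hBB : ⁅B, B⁆ ≤ kerf χ := comm_sup_sup_le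
    ((Subgroup.commutator_mono le_rfl le_top).trans hS)
    ((Subgroup.commutator_mono le_rfl le_top).trans hS)
    (Subgroup.commutator_le.2 (by
      rintro _ ⟨i, rfl⟩ _ ⟨j, rfl⟩
      rw [commutatorElement_eq_one_iff_commute.2 (Commute.zpow_zpow_self x i j)]
      exact (kerf χ).one_mem))
  obtain ⟨l, hl, hχl⟩ := exists_lin hχ B hBB
  have hKB : kerf χ ≤ B := hKS.trans le_sup_left
  have hxB : x ∈ B := Subgroup.mem_sup_right (Subgroup.mem_zpowers x)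
  have hZH : Z ≤ stab ⊤ B l := fun z hz => ⟨trivial, lin_inv hχ hKB
    (by rw [Subgroup.commutator_comm]; exact (Subgroup.commutator_mono le_top le_rfl).trans hZ)
    hl hχl z hz⟩
  have hBH : B ≤ stab ⊤ B l := fun z hz => ⟨trivial, hl.ir.1.cl z hz⟩
  have hne : stab ⊤ B l ≠ ⊤ := fun h => hx fun g _ y => by
    have inv : ∀ g ∈ (⊤ : Subgroup P), ∀ a ∈ B, l (g * a * g⁻¹) = l a := fun g _ =>
      (h.ge (Subgroup.mem_top g)).2
    have e1 : ⁅x, g⁆ = x * (g * x⁻¹ * g⁻¹) := by rw [commutatorElement_def]; group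
    have m1 : g * x⁻¹ * g⁻¹ ∈ B := ‹B.Normal›.conj_mem _ (B.inv_mem hxB) g
    rw [e1, scal le_top hχ hl inv hχl y trivial _ (B.mul_mem hxB m1), hl.2 _ hxB _ m1,
      inv g trivial _ (B.inv_mem hxB), mul_comm (l x), hl.inv_mul hxB, one_mul]
  obtain ⟨τ, c, hτ, hχτ, hτc, hce⟩ := exists_under hl.ir hχ hχl he
  generalize stab ⊤ B l = H at hZH hBH hne hτ hχτ hce
  have hτK : KInv H (kerf χ) τ := hτ.kinv (hKB.trans hBH) (fun y _ x hx => hx y) hχτ
  have hcard : Fintype.card H ≤ N := by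
    have h1 := H.card_mul_index
    have h2 := Subgroup.one_lt_index_of_ne_top hne
    rw [Nat.card_eq_fintype_card, Nat.card_eq_fintype_card] at h1
    have h3 : 0 < Fintype.card H := Fintype.card_pos
    nlinarith
  obtain ⟨H', μ', hZ', hi, hμ', hip⟩ := ih H hcard (hP.to_subgroup H) (fun x : H => τ x) c
    (Z.subgroupOf H) (ir_subtype H hτ) hτc (Subgroup.commutator_le.2 fun a _ b hb y =>
      hτK y y.2 _ (hZ (Subgroup.commutator_mem_commutator (Subgroup.mem_top a.1) hb)))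
  let μ : P → ℂ := fun g => if h : g ∈ H then μ' ⟨g, h⟩ else 0
  have ev : ∀ g : H, μ g = μ' g := fun g => dif_pos g.2
  have hμ : Lin (H'.map H.subtype) μ := ⟨(ev 1).trans hμ'.1, by
    rintro _ ⟨a, ha, rfl⟩ _ ⟨b, hb, rfl⟩
    exact (ev (a * b)).trans ((hμ'.2 a ha b hb).trans (by rw [← ev, ← ev]; rfl))⟩
  refine ⟨H'.map H.subtype, μ, fun z hz => ⟨⟨z, hZH hz⟩, hZ' hz, rfl⟩, ?_, hμ,
    mon_ip_ne (hχ.1.mono le_top) hτ (Subgroup.map_subtype_le _) hμ.ir.1 hχτ ?_⟩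
  · rw [Subgroup.index_map_subtype, mul_comm]
    exact (Nat.mul_le_mul_left _ hi).trans hce
  · rw [mon_ip_map]
    simpa only [ev] using hip

/-- apply `mon_top` to an irreducible constituent of `χ` on `P`; for `z` in `⁅H, H⁆` the linear
constituent `μ` has `μ (y * z) = μ y`, and `χ (y * z) = c * χ y` (`cen_char`) gives `c = 1` -/
theorem mon {G : Type} [Group G] [Fintype G] {p : ℕ} (hp : p.Prime) (P Z : Subgroup G)
    (hP : IsPGroup p P) {χ : G → ℂ} {e : ℕ} (hχ : Ir ⊤ χ) (he : χ 1 = e)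
    (hZ : ⁅(⊤ : Subgroup G), Z⁆ ≤ kerf χ) : ∃ H : Subgroup G, Z ⊓ P ≤ H ∧ H ≤ P ∧
      H.relIndex P ≤ e ∧ Z ⊓ ⁅H, H⁆ ≤ kerf χ := by
  classical
  obtain ⟨n, n0, hn⟩ := hχ.deg_pos
  obtain ⟨θ0, -, h0⟩ := (hχ.1.mono (le_top : P ≤ ⊤)).cl.exists_ir
    (by rw [hn]; exact Nat.cast_ne_zero.2 n0.ne')
  obtain ⟨θ, c, hθ, hχθ, -, hθc, hce⟩ := exists_mid hχ he le_rfl h0
  have := kerf_normal hχ.1.cl
  have hχ' : Ch (⊤ : Subgroup P) (fun x : P => χ x) := by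
    obtain ⟨d, ρ, hρ⟩ := hχ.1.mono (le_top : P ≤ ⊤)
    exact ⟨d, ρ.comp (⊤ : Subgroup P).subtype, fun x => hρ x.1⟩
  have hθ' := ir_subtype P hθ
  have hip' : ip (⊤ : Subgroup P) (fun x : P => χ x) (fun x : P => θ x) ≠ 0 := by
    rw [← mon_ip_map, ← MonoidHom.range_eq_map, Subgroup.range_subtype]; exact hχθ
  have hK : KInv ⊤ ((kerf χ).subgroupOf P) (fun x : P => θ x) :=
    hθ'.kinv le_top (fun y _ x hx => hx y) hip'
  obtain ⟨H, μ, hZH, hi, hμ, hip⟩ := mon_top hp _ P le_rfl hP (fun x : P => θ x) c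
    (Z.subgroupOf P) hθ' hθc (Subgroup.commutator_le.2 fun a _ b hb y =>
      hK y trivial _ (hZ (Subgroup.commutator_mem_commutator (Subgroup.mem_top a.1) hb)))
  have hne := mon_ip_ne hχ' hθ' le_top hμ.ir.1 hip' hip
  refine ⟨H.map P.subtype, fun z hz => ⟨⟨z, hz.2⟩, hZH hz.1, rfl⟩, Subgroup.map_subtype_le _,
    ?_, ?_⟩
  · rw [Subgroup.relIndex, Subgroup.subgroupOf,
      Subgroup.comap_map_eq_self_of_injective P.subtype_injective]
    exact hi.trans hce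
  rintro z ⟨hz, hz'⟩ y
  rw [← Subgroup.map_commutator] at hz'
  obtain ⟨w, hw, rfl⟩ := hz'
  have hc := (cen_char hχ he Z hZ).2.1
  have hwH : w ∈ H := Subgroup.commutator_le_self H hw
  have h1 : ip H (fun x : P => χ x) μ = χ w / e * ip H (fun x : P => χ x) μ := by
    rw [← ip_smul]
    unfold ip
    congr 1
    rw [← frob_sum_mul hwH]
    refine sum_congr rfl fun x hx => ?_
    rw [mul_inv_rev, hμ.2 _ (H.inv_mem hwH) _ (H.inv_mem (mem_els.1 hx)),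
      mon_lin_comm hμ _ (Subgroup.inv_mem _ hw), one_mul]
    exact congrArg (· * _) (hc x w hz)
  have h2 : χ w / e = 1 := (mul_eq_right₀ hne).1 h1.symm
  exact (hc y w hz).trans (by rw [h2, one_mul])

end Pool.Agent.Lib.MP_d87a8f_pr.S
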