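import Mathlib
import Pool.Agent.Lib.MP_d87a8f_pr.J.Grp
import Pool.Agent.Lib.MP_d87a8f_pr.E.Char

/-!
Commutator subgroups along a chain, transfer, and linear characters.
-/

namespace Pool.Agent.Lib.MP_d87a8f_pr.S

open Finset Pool.Agent.Lib.MP_d87a8f_pr.E
open scoped commutatorElement

theorem comm_le_coatom {P : Type} [Group P] [Group.IsNilpotent P] (M : Subgroup P)
    (hM : IsCoatom M) : commutator P ≤ M := by
  have hn : M.Normal :=
    Subgroup.NormalizerCondition.normal_of_coatom M Group.normalizerCondition_of_isNilpotent hM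
  have : Nontrivial (P ⧸ M) := QuotientGroup.nontrivial_iff.2 hM.1
  have h1 : M ≤ (commutator (P ⧸ M)).comap (QuotientGroup.mk' M) := fun z hz => by
    show ((z : P) : P ⧸ M) ∈ commutator (P ⧸ M)
    rw [(QuotientGroup.eq_one_iff z).2 hz]; exact Subgroup.one_mem _
  have h2 : commutator P ≤ (commutator (P ⧸ M)).comap (QuotientGroup.mk' M) := by
    rw [← Subgroup.map_le_iff_le_comap, commutator_def, Subgroup.map_commutator]
    exact Subgroup.commutator_mono le_top le_top
  rcases h1.eq_or_lt with e | e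
  · exact e ▸ h2
  · exfalso
    apply (Group.IsSolvable.commutator_lt_top_of_nontrivial (P ⧸ M)).ne
    rw [eq_top_iff]
    intro q _
    obtain ⟨g, rfl⟩ := QuotientGroup.mk'_surjective M q
    exact (hM.2 _ e ▸ Subgroup.mem_top g : g ∈ (commutator (P ⧸ M)).comap (QuotientGroup.mk' M))

theorem card_comm_sub {G : Type} [Group G] {H M : Subgroup G} (h : H ≤ M) :
    Nat.card (⁅H.subgroupOf M, H.subgroupOf M⁆ : Subgroup M) = Nat.card (⁅H, H⁆ : Subgroup G) := by
  rw [← Subgroup.card_subtype M, Subgroup.map_commutator, Subgroup.map_subgroupOf_eq_of_le h]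

theorem sc2_top {p : ℕ} (hp : p.Prime) (a c : ℕ) : ∀ (P : Type) [Group P] [Finite P],
    IsPGroup p P → ∀ Z H : Subgroup P, Z ≤ Subgroup.center P → Z.index ≤ 2 ^ a → H.index ≤ 2 ^ c →
    Nat.card (commutator P) ≤ Nat.card (⁅H, H⁆ : Subgroup P) * 2 ^ (a * c) := by
  have : Fact p.Prime := ⟨hp⟩
  induction c with
  | zero =>
    intro P _ _ _ Z H _ _ hc
    have h0 : H.index ≠ 0 := Subgroup.index_ne_zero_of_finite
    rw [Subgroup.index_eq_one.1 (show H.index = 1 by omega), mul_zero, pow_zero, mul_one,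
      commutator_def]
  | succ c ih =>
    intro P _ _ hP Z H hZ ha hc
    by_cases ht : H = ⊤
    · rw [ht, commutator_def]
      exact Nat.le_mul_of_pos_right _ (by positivity)
    obtain ⟨M, hM, hHM⟩ := (eq_top_or_exists_le_coatom _).resolve_left ht
    have := hP.isNilpotent
    have h1 := Subgroup.relIndex_mul_index hHM
    have h2 : 1 < M.index := Subgroup.one_lt_index_of_ne_top hM.1
    have h3 : H.relIndex M ≤ 2 ^ c := by
      rw [pow_succ] at hc
      nlinarith
    have h4 : Z.relIndex M ≤ 2 ^ a := by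
      refine le_trans ?_ ha
      rw [← Subgroup.relIndex_top_right]
      exact Subgroup.relIndex_le_of_le_right le_top Subgroup.index_ne_zero_of_finite
    have h5 := ih M (hP.to_subgroup M) (Z.subgroupOf M) (H.subgroupOf M)
      (fun z hz => Subgroup.mem_center_iff.2 fun y =>
        Subtype.ext (Subgroup.mem_center_iff.1 (hZ hz) y)) h4 h3
    rw [card_comm_sub hHM] at h5
    refine (J.sc2_step M hM (comm_le_coatom M hM) Z hZ).trans ((Nat.mul_le_mul h5 h4).trans ?_)
    rw [mul_assoc, ← pow_add, mul_add, mul_one]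

variable {G : Type} [Group G] [Fintype G]

theorem relIndex_map_le (K A P : Subgroup G) [K.Normal] :
    (A.map (QuotientGroup.mk' K)).relIndex (P.map (QuotientGroup.mk' K)) ≤ A.relIndex P := by
  rw [← Subgroup.relIndex_comap]
  exact Subgroup.relIndex_le_of_le_left (Subgroup.le_comap_map _ A) Subgroup.index_ne_zero_of_finite

/-- pass to `G ⧸ K`; induction on `c` along maximal subgroups over `H` with `J.sc2_step` -/
theorem sc2_rel {p : ℕ} (hp : p.Prime) (K Z H P : Subgroup G) [K.Normal] (hP : IsPGroup p P)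
    (hZ : ⁅(⊤ : Subgroup G), Z⁆ ≤ K) (hZH : Z ⊓ P ≤ H) (hH : H ≤ P) {a c : ℕ}
    (ha : Z.relIndex P ≤ 2 ^ a) (hc : H.relIndex P ≤ 2 ^ c) :
    (⁅H, H⁆ ⊔ K).relIndex ⁅P, P⁆ ≤ 2 ^ (a * c) := by
  have _ := hZH
  set f := QuotientGroup.mk' K with hf
  have h1 : Z.map f ≤ Subgroup.center (G ⧸ K) := by
    rintro _ ⟨z, hz, rfl⟩
    refine Subgroup.mem_center_iff.2 fun y => ?_
    obtain ⟨g, rfl⟩ := QuotientGroup.mk'_surjective K y
    rw [← commutatorElement_eq_one_iff_mul_comm, ← map_commutatorElement]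
    exact (QuotientGroup.eq_one_iff _).2 (hZ (Subgroup.commutator_mem_commutator trivial hz))
  have h2 : H.map f ≤ P.map f := Subgroup.map_mono hH
  have h3 := sc2_top hp a c (P.map f) (hP.map f) ((Z.map f).subgroupOf _) ((H.map f).subgroupOf _)
    (fun z hz => Subgroup.mem_center_iff.2 fun y =>
      Subtype.ext (Subgroup.mem_center_iff.1 (h1 hz) y))
    ((relIndex_map_le K Z P).trans ha) ((relIndex_map_le K H P).trans hc)
  rw [card_comm_sub h2, ← Subgroup.card_subtype (P.map f) (commutator _),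
    Subgroup.map_subtype_commutator] at h3
  have h4 : ⁅H, H⁆ ⊔ K = (⁅H.map f, H.map f⁆ : Subgroup (G ⧸ K)).comap f := by
    rw [← Subgroup.map_commutator, Subgroup.comap_map_eq, hf, QuotientGroup.ker_mk']
  rw [h4, Subgroup.relIndex_comap, Subgroup.map_commutator]
  have h5 : (⁅H.map f, H.map f⁆ : Subgroup (G ⧸ K)) ≤ ⁅P.map f, P.map f⁆ :=
    Subgroup.commutator_mono h2 h2
  have h6 := ((⁅H.map f, H.map f⁆ : Subgroup (G ⧸ K)).subgroupOf ⁅P.map f, P.map f⁆).card_mul_index
  rw [Nat.card_congr (Subgroup.subgroupOfEquivOfLe h5).toEquiv] at h6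
  rw [← h6] at h3
  exact Nat.le_of_mul_le_mul_left h3 Nat.card_pos

/-- `J.transfer_central` in `G ⧸ K` -/
theorem transfer_rel (K P : Subgroup G) [K.Normal] {z : G} (hz : z ∈ commutator G)
    (hc : ∀ g : G, ⁅g, z⁆ ∈ K) : z ^ P.index ∈ ⁅P, P⁆ ⊔ K := by
  set f := QuotientGroup.mk' K with hf
  have h1 : f z ∈ Subgroup.center (G ⧸ K) := by
    refine Subgroup.mem_center_iff.2 fun y => ?_
    obtain ⟨g, rfl⟩ := QuotientGroup.mk'_surjective K y
    rw [← commutatorElement_eq_one_iff_mul_comm, ← map_commutatorElement]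
    exact (QuotientGroup.eq_one_iff _).2 (hc g)
  have h2 : f z ∈ commutator (G ⧸ K) := by
    have : (commutator G).map f ≤ commutator (G ⧸ K) := by
      rw [commutator_def, Subgroup.map_commutator]
      exact Subgroup.commutator_mono le_top le_top
    exact this ⟨z, hz, rfl⟩
  obtain ⟨h3, h4⟩ := J.transfer_central (P.map f) (f z) h1 h2
  have h5 : f z ^ (P.map f).index ∈ (⁅P.map f, P.map f⁆ : Subgroup (G ⧸ K)) := by
    rw [← Subgroup.map_subtype_commutator]
    exact ⟨_, h4, rfl⟩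
  obtain ⟨m, hm⟩ := P.index_map_dvd (QuotientGroup.mk'_surjective K)
  have h6 : z ^ P.index ∈ ((⁅P, P⁆ : Subgroup G).map f).comap f := by
    rw [Subgroup.mem_comap, map_pow, hm, pow_mul, Subgroup.map_commutator]
    exact Subgroup.pow_mem _ h5 m
  rwa [Subgroup.comap_map_eq, hf, QuotientGroup.ker_mk'] at h6

/-- linear characters are linearly independent functions on the cosets of `K` -/
theorem card_lin (B K : Subgroup G) {ι : Type} (t : Finset ι) (θ : ι → G → ℂ)
    (hl : ∀ i ∈ t, Lin B (θ i)) (hK : ∀ i ∈ t, ∀ x ∈ B, x ∈ K → θ i x = 1)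
    (hd : ∀ i ∈ t, ∀ j ∈ t, (∀ x ∈ B, θ i x = θ j x) → i = j) : t.card ≤ K.relIndex B := by
  classical
  let φ : t → (B →* ℂ) := fun i =>
    { toFun := fun x => θ i x
      map_one' := (hl i i.2).1
      map_mul' := fun x y => (hl i i.2).2 x x.2 y y.2 }
  have hφ : Function.Injective φ := fun i j h =>
    Subtype.ext (hd i i.2 j j.2 fun x hx => DFunLike.congr_fun h ⟨x, hx⟩)
  have h1 := (linearIndependent_monoidHom B ℂ).comp φ hφ
  let F : t → (B ⧸ K.subgroupOf B) → ℂ := fun i q => φ i q.out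
  have h2 : (LinearMap.funLeft ℂ ℂ (fun x : B => (x : B ⧸ K.subgroupOf B))) ∘ F =
      (fun f : B →* ℂ => (f : B → ℂ)) ∘ φ := by
    funext i x
    obtain ⟨k, hk⟩ := QuotientGroup.mk_out_eq_mul (K.subgroupOf B) x
    show φ i (x : B ⧸ K.subgroupOf B).out = φ i x
    rw [hk, map_mul, show φ i k = 1 from hK i i.2 _ k.1.2 k.2, mul_one]
  rw [← h2] at h1
  have : Fintype (B ⧸ K.subgroupOf B) := Fintype.ofFinite _
  have h3 := (LinearIndependent.of_comp _ h1).fintype_card_le_finrank
  rwa [Fintype.card_coe, Module.finrank_fintype_fun_eq_card, ← Nat.card_eq_fintype_card] at h3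

end Pool.Agent.Lib.MP_d87a8f_pr.S
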