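import Mathlib
import Pool.Agent.Lib.MP_d87a8f_pr.S.Ct
import Pool.Agent.Lib.MP_d87a8f_pr.S.Mon
import Pool.Agent.Lib.MP_d87a8f_pr.S.Sc

/-!
Characters with a common central subgroup.
-/

namespace Pool.Agent.Lib.MP_d87a8f_pr.S

open Finset Pool.Agent.Lib.MP_d87a8f_pr.E Pool.Agent.Lib.MP_d87a8f_pr.M

variable {G : Type} [Group G] [Fintype G]

omit [Fintype G] in
theorem le_kerf {K : Subgroup G} {χ : G → ℂ} (h : KInv ⊤ K χ) : K ≤ kerf χ :=
  fun x hx y => h y trivial x hx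

open Classical in
/-- functions which are `e` times a linear character of `B` with given values on `K` -/
theorem card_res (B K : Subgroup G) {e : ℂ} (he : e ≠ 0) {l : G → ℂ} (hl : Lin B l)
    (t : Finset (G → ℂ)) (h1 : ∀ χ ∈ t, Lin B fun z => χ z / e)
    (h2 : ∀ χ ∈ t, ∀ x ∈ B, x ∈ K → χ x / e = l x) :
    (t.image fun χ => fun z : B => χ z).card ≤ K.relIndex B := by
  have h0 : ∀ x ∈ B, l x⁻¹ ≠ 0 := fun x hx => left_ne_zero_of_mul_eq_one (hl.inv_mul hx)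
  refine card_lin B K _ (fun r x => if h : x ∈ B then r ⟨x, h⟩ / e * l x⁻¹ else 0) ?_ ?_ ?_
  · intro r hr
    obtain ⟨χ, hχ, rfl⟩ := mem_image.1 hr
    refine ⟨?_, fun x hx y hy => ?_⟩
    · have := (h1 χ hχ).1
      simp only [dif_pos B.one_mem, inv_one, hl.1, mul_one]
      exact this
    · have : χ (x * y) / e = χ x / e * (χ y / e) := (h1 χ hχ).2 x hx y hy
      simp only [dif_pos hx, dif_pos hy, dif_pos (B.mul_mem hx hy)]
      rw [this, mul_inv_rev, hl.2 _ (B.inv_mem hy) _ (B.inv_mem hx)]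
      ring
  · intro r hr x hx hxK
    obtain ⟨χ, hχ, rfl⟩ := mem_image.1 hr
    simp only [dif_pos hx]
    rw [h2 χ hχ x hx hxK, mul_comm, hl.inv_mul hx]
  · intro r _ r' _ h
    funext x
    have := h x x.2
    simp only [dif_pos x.2] at this
    exact (div_left_inj' he).1 (mul_right_cancel₀ (h0 x x.2) this)

omit [Fintype G] in
theorem lin_pow {B : Subgroup G} {l : G → ℂ} (hl : Lin B l) {z : G} (hz : z ∈ B) (n : ℕ) :
    l (z ^ n) = l z ^ n := by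
  induction n with
  | zero => rw [pow_zero, pow_zero, hl.1]
  | succ n ih => rw [pow_succ, pow_succ, hl.2 _ (B.pow_mem hz n) z hz, ih]

omit [Fintype G] in
theorem split_mem {K Z C : Subgroup G} [K.Normal] (hK : K ≤ Z) {x : G} (hx : x ∈ Z)
    (h : x ∈ C ⊔ K) : ∃ c ∈ Z ⊓ C, ∃ k ∈ K, c * k = x := by
  have h1 : x ∈ ((C ⊔ K : Subgroup G) : Set G) := h
  rw [Subgroup.mul_normal] at h1
  obtain ⟨c, hc, k, hk, rfl⟩ := h1
  exact ⟨c, ⟨(Z.mul_mem_cancel_right (hK hk)).1 hx, hc⟩, k, hk, rfl⟩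

open Classical in
/-- one prime: `mon`, `ct_rel` with `R = Z ⊓ P`, `sc2_rel`, `card_lin` -/
theorem central_sylow {p : ℕ} (hp : p.Prime) (K Z P : Subgroup G) [K.Normal] (hK : K ≤ Z)
    (hZ : ⁅(⊤ : Subgroup G), Z⁆ ≤ K) (hP : IsPGroup p P) {a b e : ℕ} (ha : Z.relIndex P ≤ 2 ^ a)
    (he : e ≤ 2 ^ b) (t : Finset (G → ℂ)) (ht : ∀ χ ∈ t, Ir ⊤ χ ∧ χ 1 = e ∧ KInv ⊤ K χ) :
    (t.image fun χ => fun z : (Z ⊓ ⁅P, P⁆ : Subgroup G) => χ z).card ≤
      (2 * e + 1) ^ a * 2 ^ (a * b) := by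
  rcases t.eq_empty_or_nonempty with rfl | ⟨χ0, h0⟩
  · simp
  obtain ⟨n, n0, hn⟩ := (ht χ0 h0).1.deg_pos
  have he0 : (e : ℂ) ≠ 0 := by
    rw [← (ht χ0 h0).2.1, hn]; exact Nat.cast_ne_zero.2 n0.ne'
  have h1 := ct_rel e a (Z ⊓ P) P (by rwa [Subgroup.inf_relIndex_right])
  set S := {C : Subgroup G | Z ⊓ P ≤ C ∧ C ≤ P ∧ C.relIndex P ≤ e} with hS
  have hf : S.Finite := Set.toFinite _
  rw [Set.ncard_eq_toFinset_card S hf] at h1
  have h2 : (t.image fun χ => fun z : (Z ⊓ ⁅P, P⁆ : Subgroup G) => χ z) ⊆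
      hf.toFinset.biUnion fun H => (t.filter fun χ => Z ⊓ ⁅H, H⁆ ≤ kerf χ).image
        fun χ => fun z : (Z ⊓ ⁅P, P⁆ : Subgroup G) => χ z := by
    intro r hr
    obtain ⟨χ, hχ, rfl⟩ := mem_image.1 hr
    obtain ⟨a1, a2, a3⟩ := ht χ hχ
    obtain ⟨H, b1, b2, b3, b4⟩ := mon hp P Z hP a1 a2 (hZ.trans (le_kerf a3))
    exact mem_biUnion.2 ⟨H, hf.mem_toFinset.2 ⟨b1, b2, b3⟩,
      mem_image_of_mem _ (mem_filter.2 ⟨hχ, b4⟩)⟩
  refine (card_le_card h2).trans ((card_biUnion_le_card_mul _ _ (2 ^ (a * b)) fun H hH => ?_).trans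
    (Nat.mul_le_mul_right _ h1))
  obtain ⟨b1, b2, b3⟩ := hf.mem_toFinset.1 hH
  refine (card_res _ (⁅H, H⁆ ⊔ K) he0 (l := fun _ => 1) ⟨rfl, fun _ _ _ _ => (one_mul _).symm⟩ _
    (fun χ hχ => ?_) (fun χ hχ x hx hx' => ?_)).trans ?_
  · obtain ⟨a1, a2, a3⟩ := ht χ (mem_filter.1 hχ).1
    exact (cen_char a1 a2 Z (hZ.trans (le_kerf a3))).1.mono inf_le_left
  · obtain ⟨-, a2, a3⟩ := ht χ (mem_filter.1 hχ).1
    obtain ⟨c, hc, k, hk, rfl⟩ := split_mem hK hx.1 hx'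
    have h3 := (kerf χ).mul_mem ((mem_filter.1 hχ).2 hc) (le_kerf a3 hk) 1
    rw [one_mul] at h3
    rw [h3, a2, div_self he0]
  · exact (Subgroup.relIndex_le_of_le_right inf_le_right Subgroup.index_ne_zero_of_finite).trans
      (sc2_rel hp K Z H P hP hZ b1 b2 ha (b3.trans he))

open Classical in
/-- the restriction to `Z ⊓ commutator G` is fixed by the restrictions to `Z ⊓ ⁅P, P⁆` for one
Sylow subgroup `P` for each prime divisor of `e` (`transfer_rel`, `cen_char`); `e` has at most `b`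
prime divisors -/
theorem central_core (K Z : Subgroup G) [K.Normal] (hK : K ≤ Z)
    (hZ : ⁅(⊤ : Subgroup G), Z⁆ ≤ K) {a b e : ℕ}
    (ha : ∀ (p : ℕ) (P : Subgroup G), p.Prime → IsPGroup p P → Z.relIndex P ≤ 2 ^ a)
    (he : e ≤ 2 ^ b) (t : Finset (G → ℂ)) (ht : ∀ χ ∈ t, Ir ⊤ χ ∧ χ 1 = e ∧ KInv ⊤ K χ) :
    (t.image fun χ => fun z : (Z ⊓ commutator G : Subgroup G) => χ z).card ≤
      ((2 * e + 1) ^ a * 2 ^ (a * b)) ^ b := by
  rcases t.eq_empty_or_nonempty with rfl | ⟨χ0, h0⟩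
  · simp
  obtain ⟨n, n0, hn⟩ := (ht χ0 h0).1.deg_pos
  have he0 : (e : ℂ) ≠ 0 := by
    rw [← (ht χ0 h0).2.1, hn]; exact Nat.cast_ne_zero.2 n0.ne'
  have he1 : e ≠ 0 := Nat.cast_ne_zero.1 he0
  have hP : ∀ p : e.primeFactors, ∃ P : Subgroup G, IsPGroup p P ∧ ¬ (p : ℕ) ∣ P.index := by
    intro p
    have : Fact (p : ℕ).Prime := ⟨Nat.prime_of_mem_primeFactors p.2⟩
    obtain ⟨P⟩ : Nonempty (Sylow p G) := inferInstance
    exact ⟨P, P.isPGroup', P.not_dvd_index⟩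
  choose P hP1 hP2 using hP
  have hle : ∀ p, Z ⊓ ⁅P p, P p⁆ ≤ Z ⊓ commutator G := fun p =>
    inf_le_inf_left _ (Subgroup.commutator_mono le_top le_top)
  have hcard : e.primeFactors.card ≤ b := by
    have h1 : 2 ^ e.primeFactors.card ≤ ∏ p ∈ e.primeFactors, p :=
      pow_card_le_prod _ _ _ fun p hp => (Nat.prime_of_mem_primeFactors hp).two_le
    have h2 := Nat.le_of_dvd (Nat.pos_of_ne_zero he1) (Nat.prod_primeFactors_dvd e)
    exact (Nat.pow_le_pow_iff_right (by norm_num)).1 (h1.trans (h2.trans he))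
  refine (card_le_card_of_injOn (t := Fintype.piFinset fun p : e.primeFactors =>
      t.image fun χ => fun z : (Z ⊓ ⁅P p, P p⁆ : Subgroup G) => χ z)
    (fun r p z => r (Subgroup.inclusion (hle p) z)) (fun r hr => ?_) (fun r hr r' hr' h => ?_)).trans ?_
  · obtain ⟨χ, hχ, rfl⟩ := mem_image.1 (mem_coe.1 hr)
    exact mem_coe.2 (Fintype.mem_piFinset.2 fun p => mem_image.2 ⟨χ, hχ, rfl⟩)
  · obtain ⟨χ, hχ, rfl⟩ := mem_image.1 (mem_coe.1 hr)
    obtain ⟨ψ, hψ, rfl⟩ := mem_image.1 (mem_coe.1 hr')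
    obtain ⟨a1, a2, a3⟩ := ht χ hχ
    obtain ⟨b1, b2, b3⟩ := ht ψ hψ
    obtain ⟨l1, -, p1⟩ := cen_char a1 a2 Z (hZ.trans (le_kerf a3))
    obtain ⟨l2, -, p2⟩ := cen_char b1 b2 Z (hZ.trans (le_kerf b3))
    funext z
    have q1 := p1 z z.2.1 z.2.2
    have q2 := p2 z z.2.1 z.2.2
    have q0 : ψ z / e ≠ 0 := fun h0 => by
      rw [h0, zero_pow he1] at q2
      exact zero_ne_one q2
    have q3 : ∀ p, (χ z / e / (ψ z / e)) ^ (P p).index = 1 := fun p => by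
      obtain ⟨c, hc, k, hk, hck⟩ := split_mem hK (Z.pow_mem z.2.1 (P p).index)
        (transfer_rel K (P p) z.2.2 fun g => hZ (Subgroup.commutator_mem_commutator trivial z.2.1))
      have e1 : χ c = ψ c := congrFun (congrFun h p) ⟨c, hc⟩
      rw [div_pow, div_eq_one_iff_eq (pow_ne_zero _ q0), ← lin_pow l1 z.2.1, ← lin_pow l2 z.2.1,
        ← hck, a3 c trivial k hk, b3 c trivial k hk, e1]
    have q4 : (χ z / e / (ψ z / e)) ^ e = 1 := by rw [div_pow, q1, q2, div_one]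
    have q5 : orderOf (χ z / e / (ψ z / e)) = 1 := by
      by_contra hne
      obtain ⟨r, hr, hd⟩ := Nat.exists_prime_and_dvd hne
      have hm : r ∈ e.primeFactors :=
        Nat.mem_primeFactors.2 ⟨hr, hd.trans (orderOf_dvd_of_pow_eq_one q4), he1⟩
      exact hP2 ⟨r, hm⟩ (hd.trans (orderOf_dvd_of_pow_eq_one (q3 ⟨r, hm⟩)))
    exact (div_left_inj' he0).1 ((div_eq_one_iff_eq q0).1 (orderOf_eq_one_iff.1 q5))
  · rw [Fintype.card_piFinset]
    refine (prod_le_pow_card _ _ _ fun p _ => central_sylow (Nat.prime_of_mem_primeFactors p.2)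
      K Z (P p) hK hZ (hP1 p) (ha p _ (Nat.prime_of_mem_primeFactors p.2) (hP1 p)) he t ht).trans ?_
    rw [card_univ, Fintype.card_coe]
    exact Nat.pow_le_pow_right (by positivity) hcard

/-- sort by the degree, by the restriction to `Z ⊓ commutator G` (`central_core`), by the central
character (`card_lin` for quotients of two of them) and use `card_over_le` -/
theorem central_top (K Z : Subgroup G) [K.Normal] [Z.Normal] (hK : K ≤ Z) (hZ : ⁅(⊤ : Subgroup G), Z⁆ ≤ K)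
    {a b d : ℕ} (ha : Z.index ≤ 2 ^ a) (hd : d ≤ 2 ^ b) (s : Finset (G → ℂ)) (hs : s ⊆ irr G d)
    (h : ∀ χ ∈ s, KInv ⊤ K χ) :
    s.card ≤ Nat.card (Abelianization G) * 2 ^ a * d * ((2 * d + 1) ^ a * 2 ^ (a * b)) ^ b := by
  classical
  have h1 : s ⊆ (Icc 1 d).biUnion fun e => s.filter fun χ => χ 1 = (e : ℕ) := by
    intro χ hχ
    obtain ⟨a1, n, a2, a3⟩ := mem_irr.1 (hs hχ)
    obtain ⟨m, m0, hm⟩ := a1.deg_pos
    have : m = n := Nat.cast_injective (R := ℂ) (hm.symm.trans a3)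
    exact mem_biUnion.2 ⟨n, mem_Icc.2 ⟨this ▸ m0, a2⟩, mem_filter.2 ⟨hχ, a3⟩⟩
  refine (card_le_card h1).trans ((card_biUnion_le_card_mul _ _
    (2 ^ a * Nat.card (Abelianization G) * ((2 * d + 1) ^ a * 2 ^ (a * b)) ^ b)
    fun e he => ?_).trans (le_of_eq ?_))
  swap
  · rw [Nat.card_Icc, Nat.add_sub_cancel]; ring
  obtain ⟨e1, e2⟩ := mem_Icc.1 he
  have he0 : (e : ℂ) ≠ 0 := Nat.cast_ne_zero.2 (by omega)
  set t := s.filter fun χ : G → ℂ => χ 1 = (e : ℕ) with ht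
  have h2 : ∀ χ ∈ t, Ir ⊤ χ ∧ χ 1 = e ∧ KInv ⊤ K χ := fun χ hχ =>
    ⟨(mem_irr.1 (hs (mem_filter.1 hχ).1)).1, (mem_filter.1 hχ).2, h χ (mem_filter.1 hχ).1⟩
  have h3 : ∀ χ ∈ t, Lin Z fun z => χ z / e := fun χ hχ =>
    (cen_char (h2 χ hχ).1 (h2 χ hχ).2.1 Z (hZ.trans (le_kerf (h2 χ hχ).2.2))).1
  have h4 := central_core K Z hK hZ (a := a) (fun p P _ _ => le_trans (by
    rw [← Subgroup.relIndex_top_right]
    exact Subgroup.relIndex_le_of_le_right le_top Subgroup.index_ne_zero_of_finite) ha)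
    (e2.trans hd) t h2
  refine (card_le_mul_card_image (f := fun χ => fun z : (Z ⊓ commutator G : Subgroup G) => χ z) t
    (2 ^ a * Nat.card (Abelianization G)) fun r hr => ?_).trans
    (Nat.mul_le_mul_left _ (h4.trans (by gcongr)))
  obtain ⟨ψ, hψ, rfl⟩ := mem_image.1 hr
  refine (card_le_mul_card_image (f := fun χ => fun z : Z => χ z) _ (2 ^ a) fun r hr => ?_).trans
    (Nat.mul_le_mul_left _ ?_)
  · obtain ⟨φ, hφ, rfl⟩ := mem_image.1 hr
    have l1 := h3 φ (mem_filter.1 hφ).1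
    refine (card_over_le Z l1.ir _ fun χ hχ => ?_).trans ha
    obtain ⟨c1, c2⟩ := mem_filter.1 hχ
    refine ⟨(h2 χ (mem_filter.1 c1).1).1, ?_⟩
    rw [ip_congr (f' := fun x => (e : ℂ) * (φ x / e)) (fun x hx => by
      rw [mul_div_cancel₀ _ he0]; exact congrFun c2 ⟨x, hx⟩) (fun _ _ => rfl), ip_smul, l1.ir.2,
      mul_one]
    exact he0
  · refine (card_res Z (commutator G) he0 (h3 ψ hψ) _ (fun χ hχ => h3 χ (mem_filter.1 hχ).1)
      fun χ hχ x hx hx' => ?_).trans ?_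
    · rw [show χ x = ψ x from congrFun (mem_filter.1 hχ).2 ⟨x, hx, hx'⟩]
    · show _ ≤ (commutator G).index
      rw [← Subgroup.relIndex_top_right]
      exact Subgroup.relIndex_le_of_le_right le_top Subgroup.index_ne_zero_of_finite

end Pool.Agent.Lib.MP_d87a8f_pr.S
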