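import Mathlib
import Pool.Agent.Lib.MP_d87a8f_pr.S.Defs

/-!
The kernel of the action on a small section.
-/

namespace Pool.Agent.Lib.MP_d87a8f_pr.S

open scoped commutatorElement

variable {G : Type} [Group G] [Finite G]

/-- `X` is generated by `R` and at most `a` further elements -/
theorem exists_gens (a : ℕ) (R X : Subgroup G) (hR : R ≤ X) (ha : R.relIndex X ≤ 2 ^ a) :
    ∃ x : Fin a → G, (∀ i, x i ∈ X) ∧ X ≤ R ⊔ Subgroup.closure (Set.range x) := by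
  induction a generalizing R with
  | zero =>
    have h0 : R.relIndex X ≠ 0 := Subgroup.FiniteIndex.index_ne_zero
    exact ⟨fun _ => 1, fun _ => X.one_mem,
      (Subgroup.relIndex_eq_one.1 (by omega)).trans le_sup_left⟩
  | succ a ih =>
    by_cases h : X ≤ R
    · exact ⟨fun _ => 1, fun _ => X.one_mem, h.trans le_sup_left⟩
    obtain ⟨y, hy, hyR⟩ := SetLike.not_le_iff_exists.1 h
    have h1 : R ⊔ Subgroup.closure {y} ≤ X :=
      sup_le hR ((Subgroup.closure_le _).2 (Set.singleton_subset_iff.2 hy))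
    have h2 := Subgroup.relIndex_mul_relIndex R _ X le_sup_left h1
    have h3 : R.relIndex (R ⊔ Subgroup.closure {y}) ≠ 0 := Subgroup.FiniteIndex.index_ne_zero
    have h4 : R.relIndex (R ⊔ Subgroup.closure {y}) ≠ 1 := fun e =>
      hyR (Subgroup.relIndex_eq_one.1 e
        (Subgroup.mem_sup_right (Subgroup.subset_closure (Set.mem_singleton y))))
    have h5 : 2 ≤ R.relIndex (R ⊔ Subgroup.closure {y}) := by omega
    obtain ⟨x, h6, h7⟩ := ih _ h1 (by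
      rw [← h2, pow_succ'] at ha
      exact Nat.le_of_mul_le_mul_left ((Nat.mul_le_mul_right _ h5).trans ha) two_pos)
    refine ⟨Fin.cons y x, fun i => Fin.cases hy h6 i, h7.trans ?_⟩
    rw [sup_assoc, ← Subgroup.closure_union, Fin.range_cons, Set.insert_eq]

omit [Finite G] in
theorem act_iInf {n m : ℕ} (T : Fin n → Subgroup G) (C : Subgroup G)
    (h : ∀ i, (T i).relIndex C ≤ m) : (⨅ i, T i).relIndex C ≤ m ^ n := by
  refine (Subgroup.relIndex_iInf_le T).trans ?_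
  simpa using Finset.prod_le_pow_card Finset.univ (fun i => (T i).relIndex C) m fun i _ => h i

/-- the elements of `C` whose commutator with `x` lies in `R` -/
def act_st (R C : Subgroup G) (hC : ∀ g ∈ C, ∀ r ∈ R, g * r * g⁻¹ ∈ R) (x : G) : Subgroup G where
  carrier := {g | g ∈ C ∧ ⁅g, x⁆ ∈ R}
  one_mem' := ⟨C.one_mem, by simp [R.one_mem]⟩
  mul_mem' := fun {a b} ha hb => ⟨C.mul_mem ha.1 hb.1, by
    have e : ⁅a * b, x⁆ = a * ⁅b, x⁆ * a⁻¹ * ⁅a, x⁆ := by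
      simp only [commutatorElement_def]; group
    rw [e]; exact R.mul_mem (hC a ha.1 _ hb.2) ha.2⟩
  inv_mem' := fun {a} ha => ⟨C.inv_mem ha.1, by
    have e : ⁅a⁻¹, x⁆ = a⁻¹ * ⁅a, x⁆⁻¹ * a⁻¹⁻¹ := by
      simp only [commutatorElement_def]; group
    rw [e]; exact hC _ (C.inv_mem ha.1) _ (R.inv_mem ha.2)⟩

theorem act_idx (R X C : Subgroup G) [hN : X.Normal] (hX : X ≤ C)
    (hC : ∀ g ∈ C, ∀ r ∈ R, g * r * g⁻¹ ∈ R) {x : G} (hx : x ∈ X) :
    (act_st R C hC x).relIndex C ≤ R.relIndex X := by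
  refine Nat.card_le_card_of_injective (fun q : C ⧸ (act_st R C hC x).subgroupOf C =>
    (QuotientGroup.mk ⟨q.out.1 * x * q.out.1⁻¹, hN.conj_mem x hx _⟩ : X ⧸ R.subgroupOf X))
    fun q q' e => ?_
  rw [← QuotientGroup.out_eq' q, ← QuotientGroup.out_eq' q', QuotientGroup.eq]
  have h1 : (q.out.1 * x * q.out.1⁻¹)⁻¹ * (q'.out.1 * x * q'.out.1⁻¹) ∈ R :=
    QuotientGroup.eq (s := R.subgroupOf X).1 e
  refine ⟨(q.out⁻¹ * q'.out).2, ?_⟩
  have h2 := hC _ (C.mul_mem (hX hx) (C.inv_mem q.out.2)) _ h1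
  have e2 : ⁅q.out.1⁻¹ * q'.out.1, x⁆ = x * q.out.1⁻¹ *
      ((q.out.1 * x * q.out.1⁻¹)⁻¹ * (q'.out.1 * x * q'.out.1⁻¹)) * (x * q.out.1⁻¹)⁻¹ := by
    simp only [commutatorElement_def]; group
  exact e2 ▸ h2

/-- the stabiliser in `C` of the coset of each generator has index at most `n` -/
theorem act_ex (R X C : Subgroup G) [X.Normal] (hR : R ≤ X) (hX : X ≤ C)
    (hC : ∀ g ∈ C, ∀ r ∈ R, g * r * g⁻¹ ∈ R) (n a : ℕ) (hn : R.relIndex X ≤ n) (ha : n ≤ 2 ^ a) :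
    ∃ T : Subgroup G, T ≤ C ∧ T.relIndex C ≤ n ^ a ∧ ∀ g ∈ T, ∀ x ∈ X, ⁅g, x⁆ ∈ R := by
  obtain ⟨x, h1, h2⟩ := exists_gens a R X hR (hn.trans ha)
  refine ⟨C ⊓ ⨅ i, act_st R C hC (x i), inf_le_left, ?_, fun g hg y hy => ?_⟩
  · rw [Subgroup.inf_relIndex_left]
    exact act_iInf _ C fun i => (act_idx R X C hX hC (h1 i)).trans hn
  · have key : ∀ {a b : G}, a ∈ C → ⁅b, a⁆ ∈ R → ⁅a, b⁆ ∈ R := fun _ h => by
      rw [← commutatorElement_inv]; exact R.inv_mem h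
    have h3 : R ⊔ Subgroup.closure (Set.range x) ≤ act_st R C hC g := by
      refine sup_le (fun r hr => ⟨hX (hR hr), key (hX (hR hr)) ?_⟩) ((Subgroup.closure_le _).2 ?_)
      · exact R.mul_mem (hC g hg.1 r hr) (R.inv_mem hr)
      · rintro _ ⟨i, rfl⟩
        exact ⟨hX (h1 i), key (hX (h1 i)) (Subgroup.mem_iInf.1 hg.2 i).2⟩
    exact key hg.1 (h3 (h2 hy)).2

/-- `Subgroup.relIndex_iInf_le` -/
theorem rel_iInf_le {n m : ℕ} (T : Fin n → Subgroup G) (C : Subgroup G)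
    (h : ∀ i, (T i).relIndex C ≤ m) : (⨅ i, T i).relIndex C ≤ m ^ n := by
  exact act_iInf T C h

end Pool.Agent.Lib.MP_d87a8f_pr.S
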