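import Mathlib
import Pool.Agent.Lib.MP_d87a8f_pr.S.Wt

/-!
Twisting by commutators.
-/

namespace Pool.Agent.Lib.MP_d87a8f_pr.S

open Finset Pool.Agent.Lib.MP_d87a8f_pr.E
open scoped commutatorElement

variable {G : Type} [Group G] [Fintype G] {τ l : G → ℂ}

/-- for `g` in `D` the function `μ x = l ⁅g, x⁆` is a linear character of `X` with `μ τ = τ` on `X`
(`scal`), so `ip X (τ x⁻¹ * τ x) μ = ip X τ τ` is a positive natural number; `Ch.sum_le` for coset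
representatives -/
theorem tw_ex {A C : Subgroup G} [A.Normal] (hA : A ≤ C) (hτ : Ir C τ) {e : ℕ} (he : τ 1 = e)
    (hl : Lin A l) (hinv : ∀ g ∈ C, ∀ a ∈ A, l (g * a * g⁻¹) = l a) (h : ip A τ l ≠ 0)
    (D X : Subgroup G) (hD : D ≤ C) (hX : X ≤ C) (hDX : ⁅D, X⁆ ≤ A) :
    ∃ U : Subgroup G, U.relIndex D ≤ e ^ 2 ∧ ∀ g, g ∈ U ↔ g ∈ D ∧ ∀ x ∈ X, l ⁅g, x⁆ = 1 := by
  classical
  have nA : A.Normal := inferInstance
  have hm : ∀ g ∈ D, ∀ x ∈ X, ⁅g, x⁆ ∈ A := fun g hg x hx =>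
    hDX (Subgroup.commutator_mem_commutator hg hx)
  have hL : ∀ a ∈ D, ∀ b ∈ D, ∀ x ∈ X, l ⁅a * b, x⁆ = l ⁅b, x⁆ * l ⁅a, x⁆ := by
    intro a ha b hb x hx
    have e : ⁅a * b, x⁆ = a * ⁅b, x⁆ * a⁻¹ * ⁅a, x⁆ := by
      simp only [commutatorElement_def]; group
    rw [e, hl.2 _ (nA.conj_mem _ (hm b hb x hx) a) _ (hm a ha x hx),
      hinv a (hD ha) _ (hm b hb x hx)]
  have hR : ∀ g ∈ D, Lin X fun x => l ⁅g, x⁆ := by
    refine fun g hg => ⟨by simp [hl.1], fun x hx y hy => ?_⟩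
    have e : ⁅g, x * y⁆ = ⁅g, x⁆ * (x * ⁅g, y⁆ * x⁻¹) := by
      simp only [commutatorElement_def]; group
    beta_reduce
    rw [e, hl.2 _ (hm g hg x hx) _ (nA.conj_mem _ (hm g hg y hy) x),
      hinv x (hX hx) _ (hm g hg y hy)]
  have hI : ∀ g ∈ D, ∀ x ∈ X, l ⁅g, x⁆ * l ⁅g⁻¹, x⁆ = 1 := fun g hg x hx => by
    rw [← hL _ (D.inv_mem hg) g hg x hx, inv_mul_cancel, commutatorElement_one_left, hl.1]
  have hT : ∀ g ∈ D, ∀ x ∈ X, l ⁅g, x⁆ * τ x = τ x := by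
    intro g hg x hx
    have e : g * x * g⁻¹ = x * (x⁻¹ * ⁅g, x⁆ * x⁻¹⁻¹) := by
      simp only [commutatorElement_def]; group
    have := hτ.1.cl g (hD hg) x (hX hx)
    rwa [e, scal hA hτ hl hinv h x (hX hx) _ (nA.conj_mem _ (hm g hg x hx) x⁻¹),
      hinv _ (C.inv_mem (hX hx)) _ (hm g hg x hx)] at this
  let U : Subgroup G :=
    { carrier := {g | g ∈ D ∧ ∀ x ∈ X, l ⁅g, x⁆ = 1}
      one_mem' := ⟨D.one_mem, fun x _ => by simp [hl.1]⟩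
      mul_mem' := fun {a b} ha hb => ⟨D.mul_mem ha.1 hb.1, fun x hx => by
        rw [hL a ha.1 b hb.1 x hx, ha.2 x hx, hb.2 x hx, one_mul]⟩
      inv_mem' := fun {a} ha => ⟨D.inv_mem ha.1, fun x hx => by
        simpa [ha.2 x hx] using hI a ha.1 x hx⟩ }
  refine ⟨U, ?_, fun g => Iff.rfl⟩
  have hc := hτ.1.mono hX
  obtain ⟨m, hmm⟩ := hc.ip_nat hc
  have m0 : 1 ≤ m := by
    obtain ⟨n, n0, hn⟩ := hτ.deg_pos
    obtain ⟨θ, h1, h2⟩ := hc.cl.exists_ir (by rw [hn]; exact Nat.cast_ne_zero.2 n0.ne')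
    obtain ⟨u, hu⟩ := hc.ip_nat h1.1
    have u0 : 0 < u := Nat.pos_of_ne_zero fun h0 => h2 (by rw [hu, h0, Nat.cast_zero])
    exact (Nat.mul_pos u0 u0).trans_le (hc.con_le h1 le_rfl hc hu ((ip_comm _ _ _).trans hu) hmm)
  have : Fintype (D ⧸ U.subgroupOf D) := Fintype.ofFinite _
  have k := (hc.inv.mul hc).sum_le (univ : Finset (D ⧸ U.subgroupOf D))
    (fun q x => l ⁅((q.out : D) : G), x⁆) (fun q _ => (hR _ (q.out : D).2).ir)
    (fun q _ q' _ hq => ?_) (m := m) (e := 1) (n := e ^ 2) (fun q _ => ?_)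
    (fun q _ => by simp [hl.1]) (by simp [he, sq])
  · rw [Finset.card_univ, ← Nat.card_eq_fintype_card, mul_one] at k
    exact (Nat.le_mul_of_pos_right _ m0).trans k
  · rw [← q.out_eq, ← q'.out_eq]
    refine QuotientGroup.eq.2 (Subgroup.mem_subgroupOf.2 ⟨Subtype.property _, fun x hx => ?_⟩)
    rw [Subgroup.coe_mul, Subgroup.coe_inv,
      hL _ (D.inv_mem (q.out : D).2) _ (q'.out : D).2 x hx, ← hI _ (q.out : D).2 x hx]
    exact congrArg (· * _) (hq x hx).symm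
  · rw [← hmm]
    unfold ip
    congr 1
    refine sum_congr rfl fun x hx => ?_
    linear_combination τ x * hT _ (q.out : D).2 _ (X.inv_mem (mem_els.1 hx))

end Pool.Agent.Lib.MP_d87a8f_pr.S
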