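import Mathlib
import Pool.Agent.Lib.MP_d87a8f_pr.S.Grp
import Pool.Agent.Lib.MP_d87a8f_pr.S.Act
import Pool.Agent.Lib.MP_d87a8f_pr.S.Tw

/-!
A bound of Jordan type when all central chief factors are Abelian.
-/

namespace Pool.Agent.Lib.MP_d87a8f_pr.S

open Finset Pool.Agent.Lib.MP_d87a8f_pr.E
open scoped commutatorElement

variable {G : Type} [Group G] [Fintype G] {χ : G → ℂ}

theorem jordan_nc (hχ : Ir ⊤ χ) {n b : ℕ} (hn : χ 1 = n) (hb : 1 ≤ b) (hnb : n ≤ 2 ^ b)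
    (h : NC G (kerf χ)) :
    ∃ A : Subgroup G, A.Normal ∧ ⁅A, A⁆ ≤ kerf χ ∧ A.index ≤ 2 ^ (7 * b ^ 2 * n) := by
  have hKn : (kerf χ).Normal := kerf_normal hχ.1.cl
  obtain ⟨A, E, hAn, hEn, hKA, hAE, hEA, hEE, hz⟩ := exists_AE (kerf χ) h
  have hAA : ⁅A, A⁆ ≤ kerf χ := (Subgroup.commutator_mono hAE le_rfl).trans hEA
  refine ⟨A, hAn, hAA, ?_⟩
  obtain ⟨l, hl, hk⟩ := wts hχ hn A hAA
  have hEC : E ≤ zz (kerf χ) A := le_zz.2 hEA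
  have hCA : ⁅zz (kerf χ) A, A⁆ ≤ kerf χ := le_zz.1 le_rfl
  have hC : (zz (kerf χ) A).index ≤ n ^ n := by
    have h1 : (⨅ i, stab ⊤ A (l i)) ≤ zz (kerf χ) A := fun g hg => mem_zz.2 fun a ha => by
      have h2 := hAn.conj_mem a ha g
      refine hk _ (A.mul_mem h2 (A.inv_mem ha)) fun i => ?_
      rw [commutatorElement_def, (hl i).1.2 _ h2 _ (A.inv_mem ha),
        (mem_stab.1 (Subgroup.mem_iInf.1 hg i)).2 a ha, mul_comm, (hl i).1.inv_mul ha]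
    refine (Subgroup.index_antitone h1).trans ?_
    rw [← Subgroup.relIndex_top_right]
    exact rel_iInf_le _ _ fun i => by
      rw [Subgroup.relIndex_top_right]; exact stab_index hχ hn (hl i).1 (hl i).2
  have hz' : ∀ y ∈ zz (kerf χ) A, (∀ x ∈ E, ⁅y, x⁆ ∈ A) → (∀ i, ∀ x ∈ E, l i ⁅y, x⁆ = 1) →
      y ∈ A := fun y hy h1 h2 =>
    hz ⟨hy, mem_zz.2 fun x hx => hk _ (h1 x hx) fun i => h2 i x hx⟩
  generalize zz (kerf χ) A = C at hEC hCA hC hz'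
  have hinv := fun i => lin_inv hχ hKA hCA (hl i).1 (hl i).2
  have tw : ∀ D : Subgroup G, D ≤ C → ⁅D, E⁆ ≤ A → ∀ i, ∃ U : Subgroup G,
      U.relIndex D ≤ n ^ 2 ∧ ∀ g, g ∈ U ↔ g ∈ D ∧ ∀ x ∈ E, l i ⁅g, x⁆ = 1 := fun D h1 h2 i => by
    obtain ⟨τ, e, t1, -, t3, t4, t5⟩ := exists_mid hχ hn (hAE.trans hEC) (hl i).2
    obtain ⟨U, u1, u2⟩ := tw_ex (hAE.trans hEC) t1 t4 (hl i).1 (hinv i) t3 D E h1 hEC h2
    exact ⟨U, u1.trans (Nat.pow_le_pow_left t5 2), u2⟩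
  choose R hR1 hR2 using tw E hEC hEE
  have act : ∀ i, ∃ T : Subgroup G, T ≤ C ∧ T.relIndex C ≤ (n ^ 2) ^ (2 * b) ∧
      ∀ g ∈ T, ∀ x ∈ E, ⁅g, x⁆ ∈ R i := fun i => by
    refine act_ex (R i) E C (fun g hg => ((hR2 i g).1 hg).1) hEC (fun g hg r hr => ?_) _ _
      (hR1 i) (by rw [mul_comm, pow_mul]; exact Nat.pow_le_pow_left hnb 2)
    obtain ⟨r1, r2⟩ := (hR2 i r).1 hr
    refine (hR2 i _).2 ⟨hEn.conj_mem r r1 g, fun x hx => ?_⟩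
    have h1 := hEn.conj_mem x hx g⁻¹
    have e : ⁅g * r * g⁻¹, x⁆ = g * ⁅r, g⁻¹ * x * g⁻¹⁻¹⁆ * g⁻¹ := by
      simp only [commutatorElement_def]; group
    rw [e, hinv i g hg _ (hEE (Subgroup.commutator_mem_commutator r1 h1)), r2 _ h1]
  choose T hT1 hT2 hT3 using act
  have hT : ((⨅ i, T i) ⊓ C).relIndex C ≤ ((n ^ 2) ^ (2 * b)) ^ n := by
    rw [Subgroup.inf_relIndex_right]; exact rel_iInf_le _ _ hT2
  have hTE : ⁅(⨅ i, T i) ⊓ C, E⁆ ≤ A := Subgroup.commutator_le.2 fun g hg x hx => by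
    have h1 : ⁅g, x⁆ ∈ E := E.mul_mem (hEn.conj_mem x hx g) (E.inv_mem hx)
    exact hz' _ (hEC h1) (fun y hy => hEE (Subgroup.commutator_mem_commutator h1 hy))
      fun i => ((hR2 i _).1 (hT3 i g (Subgroup.mem_iInf.1 hg.1 i) x hx)).2
  have hTC : (⨅ i, T i) ⊓ C ≤ C := inf_le_right
  generalize (⨅ i, T i) ⊓ C = D at hT hTE hTC
  choose U hU1 hU2 using tw D hTC hTE
  have hU : ((⨅ i, U i) ⊓ D).relIndex D ≤ (n ^ 2) ^ n := by
    rw [Subgroup.inf_relIndex_right]; exact rel_iInf_le _ _ hU1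
  have hUA : (⨅ i, U i) ⊓ D ≤ A := fun g hg =>
    hz' g (hTC hg.2) (fun x hx => hTE (Subgroup.commutator_mem_commutator hg.2 hx))
      fun i => ((hU2 i g).1 (Subgroup.mem_iInf.1 hg.1 i)).2
  refine (Subgroup.index_antitone hUA).trans ?_
  rw [← Subgroup.relIndex_mul_index (inf_le_right : (⨅ i, U i) ⊓ D ≤ D),
    ← Subgroup.relIndex_mul_index hTC]
  calc _ ≤ (n ^ 2) ^ n * (((n ^ 2) ^ (2 * b)) ^ n * n ^ n) :=
        Nat.mul_le_mul hU (Nat.mul_le_mul hT hC)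
    _ = n ^ ((3 + 4 * b) * n) := by ring
    _ ≤ (2 ^ b) ^ ((3 + 4 * b) * n) := Nat.pow_le_pow_left hnb _
    _ ≤ _ := by
      rw [← pow_mul, ← mul_assoc]
      exact Nat.pow_le_pow_right (by norm_num) (Nat.mul_le_mul_right _ (by nlinarith))

end Pool.Agent.Lib.MP_d87a8f_pr.S
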