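import Mathlib
import Pool.Agent.Lib.MP_d87a8f_pr.M.Ind
import Pool.Agent.Lib.MP_d87a8f_pr.S.Wt
import Pool.Agent.Lib.MP_d87a8f_pr.S.Cen

/-!
Characters which are sums of linear characters on a common normal subgroup of small index.
-/

namespace Pool.Agent.Lib.MP_d87a8f_pr.S

open Finset Pool.Agent.Lib.MP_d87a8f_pr.E Pool.Agent.Lib.MP_d87a8f_pr.M
open scoped commutatorElement

variable {G : Type} [Group G] [Fintype G]

/-- `exists_lin`, `H = stab ⊤ D l`, `stab_index`, `exists_mid`, `scal`; an invariant linear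
character of `D` is `1` on `⁅H, D⁆` -/
theorem exists_scal {χ : G → ℂ} {d : ℕ} (hχ : χ ∈ irr G d) (D : Subgroup G) [D.Normal]
    (hD : ⁅D, D⁆ ≤ kerf χ) : ∃ (H : Subgroup G) (τ : G → ℂ) (e : ℕ), D ≤ H ∧ H.index ≤ d ∧
      Ir H τ ∧ ip H χ τ ≠ 0 ∧ τ 1 = e ∧ e ≤ d ∧ KInv H ⁅H, D⁆ τ := by
  obtain ⟨hi, n, hn, h1⟩ := mem_irr.1 hχ
  obtain ⟨l, hl, h⟩ := exists_lin hi D hD
  have hDH : D ≤ stab ⊤ D l := fun g hg => ⟨trivial, fun x hx => hl.ir.1.cl g hg x hx⟩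
  obtain ⟨τ, e, t1, t2, t3, t4, t5⟩ := exists_mid hi h1 hDH h
  have hs := scal hDH t1 hl (fun g hg => hg.2) t3
  let K : Subgroup G :=
    { carrier := {x | x ∈ D ∧ l x = 1}
      one_mem' := ⟨D.one_mem, hl.1⟩
      mul_mem' := fun {x y} hx hy =>
        ⟨D.mul_mem hx.1 hy.1, by rw [hl.2 x hx.1 y hy.1, hx.2, hy.2, one_mul]⟩
      inv_mem' := fun {x} hx => ⟨D.inv_mem hx.1, by
        have := hl.inv_mul hx.1
        rwa [hx.2, mul_one] at this⟩ }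
  have hK : ⁅stab ⊤ D l, D⁆ ≤ K := Subgroup.commutator_le.2 fun g hg x hx => by
    have c1 : g * x * g⁻¹ ∈ D := Subgroup.Normal.conj_mem inferInstance x hx g
    refine ⟨D.mul_mem c1 (D.inv_mem hx), ?_⟩
    rw [commutatorElement_def, hl.2 _ c1 _ (D.inv_mem hx), hg.2 x hx, mul_comm]
    exact hl.inv_mul hx
  refine ⟨stab ⊤ D l, τ, e, hDH, (stab_index hi h1 hl h).trans hn, t1, t2, t4, t5.trans hn,
    fun y hy x hx => ?_⟩
  rw [hs y hy x (hK hx).1, (hK hx).2, one_mul]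

/-- the map `χ ↦ τ` to functions on the type `H` has fibres of size at most `H.index`
(`card_over_le`, `ip_congr`); `central_top` in the group `H` with `Z = D.subgroupOf H` and
`K = ⁅⊤, Z⁆` (`ir_subtype`) -/
theorem same_sub (D H : Subgroup G) [D.Normal] (hH : D ≤ H) {a b d : ℕ} (ha : D.index ≤ 2 ^ a)
    (hd : d ≤ 2 ^ b) (s : Finset (G → ℂ)) (hs : s ⊆ irr G d)
    (h : ∀ χ ∈ s, ∃ (τ : G → ℂ) (e : ℕ),
      Ir H τ ∧ ip H χ τ ≠ 0 ∧ τ 1 = e ∧ e ≤ d ∧ KInv H ⁅H, D⁆ τ) :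
    s.card ≤ H.index *
      (Nat.card (Abelianization H) * 2 ^ a * d * ((2 * d + 1) ^ a * 2 ^ (a * b)) ^ b) := by
  classical
  have := Fintype.ofFinite H
  choose! τ e t1 t2 t3 t4 t5 using h
  have hZ : (D.subgroupOf H).index ≤ 2 ^ a :=
    (Nat.le_of_dvd (Nat.pos_of_ne_zero D.index_ne_zero_of_finite)
      (Subgroup.relIndex_dvd_index_of_le hH)).trans ha
  have hK : ⁅(⊤ : Subgroup H), D.subgroupOf H⁆ ≤ ⁅H, D⁆.subgroupOf H :=
    Subgroup.commutator_le.2 fun g _ z hz => by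
      have := Subgroup.commutator_mem_commutator g.2 (show (z : G) ∈ D from hz)
      rw [Subgroup.mem_subgroupOf]
      exact this
  have h1 := central_top (G := H) ⁅(⊤ : Subgroup H), D.subgroupOf H⁆ (D.subgroupOf H)
    (Subgroup.commutator_le_right _ _) le_rfl hZ hd (s.image fun χ => fun x : H => τ χ x)
    (fun f hf => by
      obtain ⟨χ, hχ, rfl⟩ := mem_image.1 hf
      exact mem_irr.2 ⟨ir_subtype H (t1 χ hχ), e χ, t4 χ hχ, t3 χ hχ⟩)
    (fun f hf y _ x hx => by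
      obtain ⟨χ, hχ, rfl⟩ := mem_image.1 hf
      exact t5 χ hχ y y.2 x (hK hx))
  refine le_trans (card_le_mul_card_image (f := fun χ => fun x : H => τ χ x) s H.index ?_)
    (Nat.mul_le_mul_left _ h1)
  intro f hf
  obtain ⟨χ0, hχ0, rfl⟩ := mem_image.1 hf
  refine card_over_le H (t1 χ0 hχ0) _ fun χ hχ => ?_
  obtain ⟨m1, m2⟩ := mem_filter.1 hχ
  refine ⟨(mem_irr.1 (hs m1)).1, ?_⟩
  rw [← ip_congr (fun _ _ => rfl) (fun x hx => congrFun m2 ⟨x, hx⟩)]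
  exact t2 χ m1

/-- `exists_scal`, `ct_top`, `same_sub`; `2 * d + 1 ≤ 2 ^ (b + 2)` -/
theorem comm_level (D : Subgroup G) [D.Normal] {a b d M : ℕ} (ha : D.index ≤ 2 ^ a) (hb : 1 ≤ b)
    (hd : d ≤ 2 ^ b) (hM : AbLe G d M) (s : Finset (G → ℂ)) (hs : s ⊆ irr G d)
    (h : ∀ χ ∈ s, ⁅D, D⁆ ≤ kerf χ) : s.card ≤ 2 ^ (8 * b ^ 2 * (a + 1)) * M := by
  classical
  choose! H τ e t0 t1 t2 using fun χ (hχ : χ ∈ s) => exists_scal (hs hχ) D (h χ hχ)
  have c1 : (s.image H).card ≤ (2 * d + 1) ^ a := by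
    refine le_trans ?_ (ct_top D d a ha)
    rw [← Set.ncard_coe_finset]
    refine Set.ncard_le_ncard (fun C hC => ?_) (Set.toFinite _)
    obtain ⟨χ, hχ, rfl⟩ := mem_image.1 hC
    exact ⟨t0 χ hχ, t1 χ hχ⟩
  have c2 := card_le_mul_card_image (f := H) s
    (d * (M * 2 ^ a * d * ((2 * d + 1) ^ a * 2 ^ (a * b)) ^ b)) (fun C hC => by
      obtain ⟨χ0, hχ0, rfl⟩ := mem_image.1 hC
      refine (same_sub D (H χ0) (t0 χ0 hχ0) ha hd _ ((filter_subset _ _).trans hs)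
        fun χ hχ => ?_).trans ?_
      · obtain ⟨m1, m2⟩ := mem_filter.1 hχ
        rw [← m2]
        exact ⟨τ χ, e χ, t2 χ m1⟩
      · have := hM _ (t1 χ0 hχ0)
        have := t1 χ0 hχ0
        gcongr)
  have c3 : 2 * d + 1 ≤ 2 ^ (b + 2) := by
    have := Nat.one_le_two_pow (n := b)
    rw [pow_add]
    omega
  calc s.card ≤ d * (M * 2 ^ a * d * ((2 * d + 1) ^ a * 2 ^ (a * b)) ^ b) * (2 * d + 1) ^ a :=
        c2.trans (Nat.mul_le_mul_left _ c1)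
    _ ≤ 2 ^ b * (M * 2 ^ a * 2 ^ b * ((2 ^ (b + 2)) ^ a * 2 ^ (a * b)) ^ b) * (2 ^ (b + 2)) ^ a := by
        gcongr
    _ = 2 ^ (b + a + b + ((b + 2) * a + a * b) * b + (b + 2) * a) * M := by
        simp only [pow_add, pow_mul, mul_pow, add_mul]
        ring
    _ ≤ 2 ^ (8 * b ^ 2 * (a + 1)) * M := by
        refine Nat.mul_le_mul_right _ (Nat.pow_le_pow_right (by norm_num) ?_)
        obtain ⟨c, rfl⟩ := Nat.exists_eq_add_of_le hb
        ring_nf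
        omega

end Pool.Agent.Lib.MP_d87a8f_pr.S
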