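import Mathlib
import Pool.Agent.Lib.MP_d87a8f_pr.M.Low
import Pool.Agent.Lib.MP_d87a8f_pr.M.Main
import Pool.Agent.Lib.MP_d87a8f_pr.M.Factor
import Pool.Agent.Lib.MP_d87a8f_pr.S.Jor
import Pool.Agent.Lib.MP_d87a8f_pr.S.Lev

/-!
The number of characters of small degree.
-/

namespace Pool.Agent.Lib.MP_d87a8f_pr.S

open Finset Pool.Agent.Lib.MP_d87a8f_pr.E Pool.Agent.Lib.MP_d87a8f_pr.M

/-- the exponent of the loss -/
def loss (b D m C u : ℕ) : ℕ := u + 8 * b ^ 2 * (35 * b ^ 2 * D * m * C + 1)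

/-- `jordan_nc`, `tensor` with `J = 2 ^ (7 b ^ 2 D)`, `comm_level` -/
theorem nc_level {b D Lam m C u : ℕ} (hb : 1 ≤ b) (hD : D ≤ 2 ^ b) (hm : 0 < m)
    (hC : 7 * b ^ 2 * D * m * 2 ^ C < 3 ^ C) (hu : Lam * C ≤ u * m)
    (G : Type) [Group G] [Fintype G] (d M : ℕ) (s : Finset (G → ℂ)) (hd : d ≤ D)
    (hG : Fintype.card G ≤ 2 ^ Lam) (hM : AbLe G d M) (hs : s ⊆ irr G d)
    (h : ∀ χ ∈ s, NC G (kerf χ)) : s.card ≤ 2 ^ loss b D m C u * M := by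
  classical
  have hA : ∀ χ : G → ℂ, ∃ A : Subgroup G, χ ∈ s →
      A.Normal ∧ ⁅A, A⁆ ≤ kerf χ ∧ A.index ≤ 2 ^ (7 * b ^ 2 * D) := fun χ => by
    by_cases hχ : χ ∈ s
    · obtain ⟨h1, n, hn, h2⟩ := mem_irr.1 (hs hχ)
      obtain ⟨A, a1, a2, a3⟩ := jordan_nc h1 h2 hb ((hn.trans hd).trans hD) (h χ hχ)
      exact ⟨A, fun _ => ⟨a1, a2, a3.trans (Nat.pow_le_pow_right (by norm_num)
        (Nat.mul_le_mul_left _ (hn.trans hd)))⟩⟩
    · exact ⟨⊥, fun h' => absurd h' hχ⟩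
  choose A hA using hA
  have key := tensor s kerf A (2 ^ (7 * b ^ 2 * D)) m C
    (2 ^ (8 * b ^ 2 * (35 * b ^ 2 * D * m * C + 1)) * M) (Nat.one_le_two_pow)
    (fun χ hχ => kerf_normal (mem_irr.1 (hs hχ)).1.1.cl) (fun χ hχ => (hA χ hχ).1)
    (fun χ hχ => (hA χ hχ).2.1) (fun χ hχ => (hA χ hχ).2.2)
    (by rw [← pow_mul, ← pow_mul, ← mul_assoc]; exact Nat.pow_lt_pow_right (by norm_num) hC)
    (fun N hN hi => comm_level N (by
        rwa [← pow_mul, ← pow_mul, show 7 * b ^ 2 * D * (m * (5 * C)) = 35 * b ^ 2 * D * m * C by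
          ring] at hi) hb (hd.trans hD) hM _ (fun χ hχ => hs (mem_filter.1 hχ).1)
      fun χ hχ => (mem_filter.1 hχ).2)
  refine (Nat.pow_le_pow_iff_left hm.ne').1 (key.trans ?_)
  rw [loss, pow_add, mul_assoc (2 ^ u), mul_pow (2 ^ u), ← pow_mul 2 u m]
  refine Nat.mul_le_mul_right _ ((Nat.pow_le_pow_left hG C).trans ?_)
  rw [← pow_mul]
  exact Nat.pow_le_pow_right (by norm_num) hu

/-- the group theorem for solvable groups -/
theorem lowDim_solv {b D Lam m C u : ℕ} (hb : 1 ≤ b) (hD : D ≤ 2 ^ b) (hm : 0 < m)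
    (hC : 7 * b ^ 2 * D * m * 2 ^ C < 3 ^ C) (hu : Lam * C ≤ u * m)
    (G : Type) [Group G] [Fintype G] [Group.IsSolvable G] (M : ℕ)
    (hG : Fintype.card G ≤ 2 ^ Lam) (hM : AbLe G D M) :
    lowDim G D ≤ D ^ 2 * (2 ^ loss b D m C u * M) := by
  classical
  exact (lowDim_le_irr D).trans (Nat.mul_le_mul_left _
    (nc_level hb hD hm hC hu G D M _ le_rfl hG hM (fun _ h => h) fun _ _ => nc_of_solvable _))

open Classical in
/-- the statement about families with a nonabelian central chief factor -/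
def StepE (D Lam Z : ℕ) : Prop :=
  ∀ (G : Type) [Group G] [Fintype G] (d : ℕ) (s : Finset (G → ℂ)), d ≤ D →
    Fintype.card G ≤ 2 ^ Lam → s ⊆ irr G d → (∀ χ ∈ s, ¬ NC G (kerf χ)) → s.Nonempty →
    ∃ (L : Subgroup G) (θ : G → ℂ) (e : ℕ), L.Normal ∧ ⁅L, L⁆ = L ∧ Ir L θ ∧ θ 1 = e ∧ 2 ≤ e ∧
      s.card ≤ Z * (s.filter fun χ => ip L χ θ ≠ 0).card

/-- the group theorem for all groups, from `StepE` -/
theorem lowDim_of_stepE {b D Lam m C u Z : ℕ} (hb : 1 ≤ b) (hD : D ≤ 2 ^ b) (hm : 0 < m)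
    (hC : 7 * b ^ 2 * D * m * 2 ^ C < 3 ^ C) (hu : Lam * C ≤ u * m) (hZ : 1 ≤ Z)
    (hE : StepE D Lam Z) (G : Type) [Group G] [Fintype G] (M : ℕ)
    (hG : Fintype.card G * D ≤ 2 ^ Lam) (hM : AbLe G D M) :
    lowDim G D ≤ D ^ 2 * ((2 * Z * D) ^ (b + 1) * 2 ^ loss b D m C u * M) := by
  classical
  refine (lowDim_le_irr D).trans (Nat.mul_le_mul_left _ ?_)
  refine main_ind (fun G _ K => NC G K) D Lam _ Z hZ
    (fun G _ _ d M s => nc_level hb hD hm hC hu G d M s) hE factor (b + 1) G D M ?_ le_rfl hG hM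
  have : 0 < 2 ^ b := by positivity
  rw [pow_succ]; omega

end Pool.Agent.Lib.MP_d87a8f_pr.S
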